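import Pool.Agent.P.MP_0d06a5_lc.Defs

/-! Proper crossing in terms of orientation determinants. -/

namespace Pool.Agent.P.MP_0d06a5_lc

/-- Orientation determinant. -/
def ori (p q r : Pt) : ℤ := (q.1 - p.1) * (r.2 - p.2) - (q.2 - p.2) * (r.1 - p.1)

/-- The orientation test for proper crossing. -/
def X (s t : Pt × Pt) : Prop :=
  ori s.1 s.2 t.1 * ori s.1 s.2 t.2 < 0 ∧ ori t.1 t.2 s.1 * ori t.1 t.2 s.2 < 0

instance (s t : Pt × Pt) : Decidable (X s t) := by unfold X; infer_instance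

theorem X.symm {s t : Pt × Pt} (h : X s t) : X t s := ⟨h.2, h.1⟩

theorem CrossProperly.symm {s t : Pt × Pt} (h : CrossProperly s t) : CrossProperly t s := by
  obtain ⟨z, h1, h2, h3⟩ := h
  exact ⟨z, by rw [Set.inter_comm]; exact h1, h3, h2⟩

theorem mem_seg {p q : Pt} {z : ℝ × ℝ} : z ∈ segment ℝ (emb p) (emb q) ↔
    ∃ a b : ℝ, 0 ≤ a ∧ 0 ≤ b ∧ a + b = 1 ∧ z.1 = a * p.1 + b * q.1 ∧ z.2 = a * p.2 + b * q.2 := by
  constructor
  · rintro ⟨a, b, ha, hb, hab, rfl⟩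
    exact ⟨a, b, ha, hb, hab, by simp [emb], by simp [emb]⟩
  · rintro ⟨a, b, ha, hb, hab, h1, h2⟩
    exact ⟨a, b, ha, hb, hab, Prod.ext (by simp [emb, h1]) (by simp [emb, h2])⟩

theorem mem_oseg {p q : Pt} {z : ℝ × ℝ} : z ∈ openSegment ℝ (emb p) (emb q) ↔
    ∃ a b : ℝ, 0 < a ∧ 0 < b ∧ a + b = 1 ∧ z.1 = a * p.1 + b * q.1 ∧ z.2 = a * p.2 + b * q.2 := by
  constructor
  · rintro ⟨a, b, ha, hb, hab, rfl⟩
    exact ⟨a, b, ha, hb, hab, by simp [emb], by simp [emb]⟩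
  · rintro ⟨a, b, ha, hb, hab, h1, h2⟩
    exact ⟨a, b, ha, hb, hab, Prod.ext (by simp [emb, h1]) (by simp [emb, h2])⟩

theorem half_of_cross {s t : Pt × Pt} (hs : s.1 ≠ s.2) (ht : t.1 ≠ t.2) (h : CrossProperly s t) :
    ori s.1 s.2 t.1 * ori s.1 s.2 t.2 < 0 := by
  obtain ⟨⟨p1, p2⟩, ⟨q1, q2⟩⟩ := s
  obtain ⟨⟨r1, r2⟩, ⟨w1, w2⟩⟩ := t
  obtain ⟨z, h1, h2, h3⟩ := h
  obtain ⟨a, b, ha, hb, hab, e1, e2⟩ := mem_oseg.1 h2
  obtain ⟨c, d, hc, hd, hcd, e3, e4⟩ := mem_oseg.1 h3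
  simp only at e1 e2 e3 e4 hs ht ⊢
  set o1 : ℤ := ori (p1, p2) (q1, q2) (r1, r2) with ho1
  set o2 : ℤ := ori (p1, p2) (q1, q2) (w1, w2) with ho2
  have ho1' : (o1 : ℝ) = (q1 - p1) * (r2 - p2) - (q2 - p2) * (r1 - p1) := by
    rw [ho1]; simp [ori]
  have ho2' : (o2 : ℝ) = (q1 - p1) * (w2 - p2) - (q2 - p2) * (w1 - p1) := by
    rw [ho2]; simp [ori]
  have key : c * o1 + d * o2 = 0 := by
    have ea : a = 1 - b := by linarith
    have ec : c = 1 - d := by linarith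
    subst ea ec
    rw [ho1', ho2']
    linear_combination (q1 - p1 : ℝ) * (e2 - e4) - (q2 - p2 : ℝ) * (e1 - e3)
  by_cases h0 : o1 = 0
  · exfalso
    have h0' : (o1 : ℝ) = 0 := by exact_mod_cast h0
    have h02 : (o2 : ℝ) = 0 := by
      rw [h0', mul_zero, zero_add] at key
      exact (mul_eq_zero.1 key).resolve_left hd.ne'
    have hu : (0 : ℝ) < (q1 - p1) ^ 2 + (q2 - p2) ^ 2 := by
      by_contra hh
      have a1 : (q1 - p1 : ℝ) = 0 := by nlinarith [sq_nonneg (q1 - p1 : ℝ), sq_nonneg (q2 - p2 : ℝ)]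
      have a2 : (q2 - p2 : ℝ) = 0 := by nlinarith [sq_nonneg (q1 - p1 : ℝ), sq_nonneg (q2 - p2 : ℝ)]
      apply hs
      have b1 : p1 = q1 := by exact_mod_cast (by linarith : (p1 : ℝ) = q1)
      have b2 : p2 = q2 := by exact_mod_cast (by linarith : (p2 : ℝ) = q2)
      rw [b1, b2]
    set l : ℝ := ((q1 - p1) * (w1 - r1) + (q2 - p2) * (w2 - r2)) / ((q1 - p1) ^ 2 + (q2 - p2) ^ 2)
      with hl
    have l1 : (w1 - r1 : ℝ) = l * (q1 - p1) := by
      rw [hl]; field_simp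
      linear_combination (q2 - p2 : ℝ) * (ho2' - ho1' + h0' - h02)
    have l2 : (w2 - r2 : ℝ) = l * (q2 - p2) := by
      rw [hl]; field_simp
      linear_combination (p1 - q1 : ℝ) * (ho2' - ho1' + h0' - h02)
    obtain ⟨δ, hδ, hδc, hδa, hδb⟩ : ∃ δ : ℝ, 0 < δ ∧ δ ≤ c ∧ δ * l ≤ a ∧ -b ≤ δ * l := by
      have hp : 0 < |l| + 1 := by positivity
      refine ⟨min c (min a b / (|l| + 1)), lt_min hc (by positivity), min_le_left _ _, ?_⟩
      have h5 : min c (min a b / (|l| + 1)) * (|l| + 1) ≤ min a b :=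
        (le_div_iff₀ hp).1 (min_le_right _ _)
      have h6 : 0 < min c (min a b / (|l| + 1)) := lt_min hc (by positivity)
      have h7 := le_abs_self l
      have h8 := neg_abs_le l
      have h9 := min_le_left a b
      have h10 := min_le_right a b
      constructor <;> nlinarith
    have hz : (z.1 + δ * (w1 - r1), z.2 + δ * (w2 - r2)) ∈ ({z} : Set (ℝ × ℝ)) := by
      rw [← h1]
      refine ⟨mem_seg.2 ⟨a - δ * l, b + δ * l, by linarith, by linarith, by linarith, ?_, ?_⟩,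
        mem_seg.2 ⟨c - δ, d + δ, by linarith, by linarith, by linarith, ?_, ?_⟩⟩
      · simp only; rw [l1, e1]; ring
      · simp only; rw [l2, e2]; ring
      · simp only; rw [e3]; ring
      · simp only; rw [e4]; ring
    have hz' := Set.mem_singleton_iff.1 hz
    have z1 := congrArg Prod.fst hz'
    have z2 := congrArg Prod.snd hz'
    simp only at z1 z2
    have a1 : (w1 - r1 : ℝ) = 0 := by
      have : δ * (w1 - r1) = 0 := by linarith
      exact (mul_eq_zero.1 this).resolve_left hδ.ne'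
    have a2 : (w2 - r2 : ℝ) = 0 := by
      have : δ * (w2 - r2) = 0 := by linarith
      exact (mul_eq_zero.1 this).resolve_left hδ.ne'
    apply ht
    have b1 : r1 = w1 := by exact_mod_cast (by linarith : (r1 : ℝ) = w1)
    have b2 : r2 = w2 := by exact_mod_cast (by linarith : (r2 : ℝ) = w2)
    rw [b1, b2]
  · have h0' : (o1 : ℝ) ≠ 0 := by exact_mod_cast h0
    have h5 : 0 < (o1 : ℝ) ^ 2 := by positivity
    have h6 : d * ((o1 : ℝ) * o2) = -(c * o1 ^ 2) := by linear_combination (o1 : ℝ) * key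
    have h7 : (o1 : ℝ) * o2 < 0 := by
      by_contra hh
      push Not at hh
      nlinarith [mul_nonneg hd.le hh, mul_pos hc h5]
    exact_mod_cast h7

theorem X_of_cross {s t : Pt × Pt} (hs : s.1 ≠ s.2) (ht : t.1 ≠ t.2) (h : CrossProperly s t) :
    X s t := ⟨half_of_cross hs ht h, half_of_cross ht hs h.symm⟩

theorem weights {o1 o2 : ℝ} (h : o1 * o2 < 0) :
    o2 - o1 ≠ 0 ∧ 0 < o2 / (o2 - o1) ∧ 0 < -o1 / (o2 - o1) := by
  rcases lt_trichotomy o1 0 with h1 | h1 | h1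
  · have h2 : 0 < o2 := by nlinarith
    exact ⟨by linarith, div_pos h2 (by linarith), div_pos (by linarith) (by linarith)⟩
  · simp [h1] at h
  · have h2 : o2 < 0 := by nlinarith
    exact ⟨by linarith, div_pos_of_neg_of_neg h2 (by linarith),
      div_pos_of_neg_of_neg (by linarith) (by linarith)⟩

theorem cross_of_X {s t : Pt × Pt} (h : X s t) : CrossProperly s t := by
  obtain ⟨⟨p1, p2⟩, ⟨q1, q2⟩⟩ := s
  obtain ⟨⟨r1, r2⟩, ⟨w1, w2⟩⟩ := t
  obtain ⟨h1, h2⟩ := h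
  simp only [ori] at h1 h2
  have h1' : (((q1 - p1) * (r2 - p2) - (q2 - p2) * (r1 - p1) : ℝ)) *
      ((q1 - p1) * (w2 - p2) - (q2 - p2) * (w1 - p1)) < 0 := by exact_mod_cast h1
  have h2' : (((w1 - r1) * (p2 - r2) - (w2 - r2) * (p1 - r1) : ℝ)) *
      ((w1 - r1) * (q2 - r2) - (w2 - r2) * (q1 - r1)) < 0 := by exact_mod_cast h2
  obtain ⟨n1, c0, d0⟩ := weights h1'
  obtain ⟨n2, a0, b0⟩ := weights h2'
  set o1 : ℝ := (q1 - p1) * (r2 - p2) - (q2 - p2) * (r1 - p1) with ho1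
  set o2 : ℝ := (q1 - p1) * (w2 - p2) - (q2 - p2) * (w1 - p1) with ho2
  set o3 : ℝ := (w1 - r1) * (p2 - r2) - (w2 - r2) * (p1 - r1) with ho3
  set o4 : ℝ := (w1 - r1) * (q2 - r2) - (w2 - r2) * (q1 - r1) with ho4
  have hD : o4 - o3 = -(o2 - o1) := by rw [ho1, ho2, ho3, ho4]; ring
  have m2 : (o2 / (o2 - o1) * r1 + -o1 / (o2 - o1) * w1, o2 / (o2 - o1) * r2 + -o1 / (o2 - o1) * w2)
      ∈ openSegment ℝ (emb (r1, r2)) (emb (w1, w2)) :=
    mem_oseg.2 ⟨_, _, c0, d0, by field_simp; ring, rfl, rfl⟩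
  have m1 : (o2 / (o2 - o1) * r1 + -o1 / (o2 - o1) * w1, o2 / (o2 - o1) * r2 + -o1 / (o2 - o1) * w2)
      ∈ openSegment ℝ (emb (p1, p2)) (emb (q1, q2)) := by
    refine mem_oseg.2 ⟨_, _, a0, b0, by field_simp; ring, ?_, ?_⟩
    · simp only; rw [hD]; field_simp; rw [ho1, ho2, ho3, ho4]; ring
    · simp only; rw [hD]; field_simp; rw [ho1, ho2, ho3, ho4]; ring
  refine ⟨_, ?_, m1, m2⟩
  refine Set.eq_singleton_iff_unique_mem.2
    ⟨⟨openSegment_subset_segment _ _ _ m1, openSegment_subset_segment _ _ _ m2⟩, ?_⟩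
  rintro z ⟨z1, z2⟩
  obtain ⟨a, b, -, -, hab, e1, e2⟩ := mem_seg.1 z1
  obtain ⟨c, d, -, -, hcd, e3, e4⟩ := mem_seg.1 z2
  simp only at e1 e2 e3 e4
  have key : c * o1 + d * o2 = 0 := by
    have ea : a = 1 - b := by linarith
    have ec : c = 1 - d := by linarith
    subst ea ec
    rw [ho1, ho2]
    linear_combination (q1 - p1 : ℝ) * (e2 - e4) - (q2 - p2 : ℝ) * (e1 - e3)
  have hc : c = o2 / (o2 - o1) := by
    field_simp
    linear_combination -key + o2 * hcd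
  have hd : d = -o1 / (o2 - o1) := by
    field_simp
    linear_combination key - o1 * hcd
  exact Prod.ext (by rw [e3, hc, hd]) (by rw [e4, hc, hd])

theorem not_collinear {p q r : Pt} (h : ori p q r ≠ 0) : ¬ Collinear ℝ {emb p, emb q, emb r} := by
  intro hc
  rw [collinear_iff_of_mem (p₀ := emb p) (by simp)] at hc
  obtain ⟨v, hv⟩ := hc
  obtain ⟨a, ha⟩ := hv (emb q) (by simp)
  obtain ⟨b, hb⟩ := hv (emb r) (by simp)
  have a1 := congrArg Prod.fst ha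
  have a2 := congrArg Prod.snd ha
  have b1 := congrArg Prod.fst hb
  have b2 := congrArg Prod.snd hb
  simp [emb] at a1 a2 b1 b2
  apply h
  have : ((ori p q r : ℤ) : ℝ) = 0 := by
    simp only [ori]; push_cast; rw [a1, a2, b1, b2]; ring
  exact_mod_cast this

theorem family_iff {S : List Pt} {F : Finset (Pt × Pt)} : IsCrossingFamily S F ↔
    (∀ s ∈ F, s.1 ∈ S ∧ s.2 ∈ S ∧ s.1 ≠ s.2) ∧ ∀ s ∈ F, ∀ t ∈ F, s ≠ t → X s t := by
  refine and_congr_right fun h => ⟨fun h2 s hs t ht hst => ?_, fun h2 s hs t ht hst => ?_⟩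
  · exact X_of_cross (h s hs).2.2 (h t ht).2.2 (h2 hs ht hst)
  · exact cross_of_X (h2 s hs t ht hst)

theorem card_le_of_family {S : List Pt} {F : Finset (Pt × Pt)} (h : IsCrossingFamily S F) :
    F.card ≤ (S.toFinset ×ˢ S.toFinset).card :=
  Finset.card_le_card fun s hs => by simp [(h.1 s hs).1, (h.1 s hs).2.1]

theorem card_le_cf {S : List Pt} {F : Finset (Pt × Pt)} (h : IsCrossingFamily S F) :
    F.card ≤ cf S :=
  le_csSup ⟨_, by rintro n ⟨G, hG, rfl⟩; exact card_le_of_family hG⟩ ⟨F, h, rfl⟩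

theorem exists_cf (S : List Pt) : ∃ F, IsCrossingFamily S F ∧ F.card = cf S :=
  Nat.sSup_mem (s := {n : ℕ | ∃ F, IsCrossingFamily S F ∧ F.card = n})
    ⟨0, ∅, ⟨by simp, by simp⟩, rfl⟩ ⟨_, by rintro n ⟨G, hG, rfl⟩; exact card_le_of_family hG⟩

theorem le_cf_iff {S : List Pt} {k : ℕ} : k ≤ cf S ↔ ∃ F, IsCrossingFamily S F ∧ k ≤ F.card :=
  ⟨fun h => let ⟨F, hF, e⟩ := exists_cf S; ⟨F, hF, e ▸ h⟩,
    fun ⟨_, hF, h⟩ => h.trans (card_le_cf hF)⟩

end Pool.Agent.P.MP_0d06a5_lc
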