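import Pool.Agent.K.MP_0d06a5_lc.C0

-- part Pool.Agent.P.MP_0d06a5_lc.Pert
section

/-! Perturbation of integer points into general position, and elementary inequalities. -/

namespace Pool.Agent.P.MP_0d06a5_lc

/-- Scale a point by `N` and move it by `(i, i ^ 2)`. -/
def pert (N : ℤ) (p : Pt) (i : ℤ) : Pt := (N * p.1 + i, N * p.2 + i * i)

theorem abs_mul_le' {a b A B : ℤ} (ha : |a| ≤ A) (hb : |b| ≤ B) : |a * b| ≤ A * B := by
  rw [abs_mul]
  exact mul_le_mul ha hb (abs_nonneg _) ((abs_nonneg _).trans ha)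

theorem ori_pert {N B m i j k : ℤ} {p q r : Pt} (hp1 : |p.1| ≤ B) (hp2 : |p.2| ≤ B)
    (hq1 : |q.1| ≤ B) (hq2 : |q.2| ≤ B) (hr1 : |r.1| ≤ B) (hr2 : |r.2| ≤ B)
    (hi : 0 ≤ i) (hi' : i < m) (hj : 0 ≤ j) (hj' : j < m) (hk : 0 ≤ k) (hk' : k < m) :
    ∃ o : ℤ, |o| ≤ 8 * B * (m * m) ∧ |(j - i) * (k - i) * (k - j)| ≤ m * m * m ∧
      ori (pert N p i) (pert N q j) (pert N r k) =
        N * N * ori p q r + N * o + (j - i) * (k - i) * (k - j) := by
  have hB : 0 ≤ B := (abs_nonneg _).trans hp1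
  have d : ∀ {x y : ℤ}, |x| ≤ B → |y| ≤ B → |x - y| ≤ 2 * B := fun hx hy => by
    rw [abs_le] at *; constructor <;> linarith [hx.1, hx.2, hy.1, hy.2]
  have e : ∀ {x y : ℤ}, 0 ≤ x → x < m → 0 ≤ y → y < m → |x - y| ≤ m := fun h1 h2 h3 h4 => by
    rw [abs_le]; constructor <;> linarith
  have e' : ∀ {x y : ℤ}, 0 ≤ x → x < m → 0 ≤ y → y < m → |x - y| ≤ m * m := fun h1 h2 h3 h4 => by
    rw [abs_le]; constructor <;> nlinarith
  have f : ∀ {x y : ℤ}, 0 ≤ x → x < m → 0 ≤ y → y < m → |x * x - y * y| ≤ m * m :=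
    fun h1 h2 h3 h4 => by rw [abs_le]; constructor <;> nlinarith
  refine ⟨(q.1 - p.1) * (k * k - i * i) + (r.2 - p.2) * (j - i) - (q.2 - p.2) * (k - i) -
    (r.1 - p.1) * (j * j - i * i), ?_, ?_, ?_⟩
  · have a1 := abs_mul_le' (d hq1 hp1) (f hk hk' hi hi')
    have a2 := abs_mul_le' (d hr2 hp2) (e' hj hj' hi hi')
    have a3 := abs_mul_le' (d hq2 hp2) (e' hk hk' hi hi')
    have a4 := abs_mul_le' (d hr1 hp1) (f hj hj' hi hi')
    rw [abs_le] at *
    constructor <;> linarith [a1.1, a1.2, a2.1, a2.2, a3.1, a3.2, a4.1, a4.2]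
  · exact abs_mul_le' (abs_mul_le' (e hj hj' hi hi') (e hk hk' hi hi')) (e hk hk' hj hj')
  · simp only [ori, pert]; ring

theorem dom_pos {N A C x o c : ℤ} (hN : A + C < N) (ho : |o| ≤ A) (hc : |c| ≤ C) (hx : 0 < x) :
    0 < N * N * x + N * o + c := by
  have h1 := abs_nonneg o
  have h2 := abs_nonneg c
  rw [abs_le] at ho hc
  have h3 : 0 < N := by linarith
  have h4 : N * N * 1 ≤ N * N * x := by gcongr; exact hx
  have h5 : N * (C + 1) ≤ N * (N + o) := mul_le_mul_of_nonneg_left (by linarith [ho.1]) h3.le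
  nlinarith [hc.1]

theorem dom_neg {N A C x o c : ℤ} (hN : A + C < N) (ho : |o| ≤ A) (hc : |c| ≤ C) (hx : x < 0) :
    N * N * x + N * o + c < 0 := by
  have := dom_pos (x := -x) (o := -o) (c := -c) hN (by rwa [abs_neg]) (by rwa [abs_neg])
    (by linarith)
  linarith

theorem dom_ne {N A C x o c : ℤ} (hN : A + C < N) (ho : |o| ≤ A) (hc : |c| ≤ C) (hc0 : c ≠ 0) :
    N * N * x + N * o + c ≠ 0 := by
  rcases lt_trichotomy x 0 with h | h | h
  · exact (dom_neg hN ho hc h).ne
  · subst h
    have h1 := abs_nonneg o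
    have h2 := abs_nonneg c
    rw [abs_le] at hc
    rcases lt_trichotomy o 0 with h | h | h
    · have : N * o ≤ N * (-1) := by gcongr <;> linarith
      intro h'; nlinarith [hc.2]
    · simpa [h] using hc0
    · have : N * 1 ≤ N * o := by gcongr <;> linarith
      intro h'; nlinarith [hc.1]
  · exact (dom_pos hN ho hc h).ne'

theorem pert_inj {N m i j : ℤ} {p q : Pt} (hN : m ≤ N) (hi : 0 ≤ i) (hi' : i < m) (hj : 0 ≤ j)
    (hj' : j < m) (h : pert N p i = pert N q j) : i = j := by
  have h1 : N * p.1 + i = N * q.1 + j := congrArg Prod.fst h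
  rcases lt_trichotomy p.1 q.1 with h | h | h
  · have : N * (p.1 + 1) ≤ N * q.1 := by gcongr <;> linarith
    linarith
  · rw [h] at h1; linarith
  · have : N * (q.1 + 1) ≤ N * p.1 := by gcongr <;> linarith
    linarith

theorem ineq1 {a b U cs ct h : ℤ} (ha : 0 < a) (hab : 8 * a ≤ b) (hU : 0 < U)
    (hs : -(2 * U * a) ≤ cs) (ht : ct ≤ 2 * U * b) (hh : 2 * U ≤ h) (hc : ct ≤ 0 ∨ 4 * U ≤ h) :
    ct - cs < (b - a) * h := by
  have h0 : 0 < U * a := mul_pos hU ha
  rcases hc with hc | hc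
  · have : (b - a) * (2 * U) ≤ (b - a) * h := by gcongr; linarith
    nlinarith
  · have : (b - a) * (4 * U) ≤ (b - a) * h := by gcongr; linarith
    nlinarith

theorem ineq2 {a b x U cs h : ℤ} (ha : 0 < a) (hab : 8 * a ≤ b) (hU : 0 < U) (hx : 8 * a ≤ x)
    (hs : -(2 * U * a) ≤ cs) (hh : 2 * U ≤ h) : 2 * U * b - U * x - cs < (b - a) * h := by
  have h0 : 0 < U * a := mul_pos hU ha
  have : (b - a) * (2 * U) ≤ (b - a) * h := by gcongr; linarith
  nlinarith

theorem ineq3 {a b E U cs ct : ℤ} (ha : 0 < a) (hab : 8 * a ≤ b) (hU : 0 < U) (hE : 0 ≤ E)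
    (hs : -(2 * U * a) ≤ cs) (ht : ct ≤ 2 * U * b) (h : U * a ≤ E * b) :
    ct - cs < (b - a) * (2 * U + 6 * E) := by
  have h0 : 0 < U * a := mul_pos hU ha
  have : E * (8 * a) ≤ E * b := by gcongr
  nlinarith

theorem ineq4 {a b x E U cs : ℤ} (ha : 0 < a) (hU : 0 < U) (hE : 0 ≤ E) (hx : x ≤ a)
    (hs : cs ≤ 0) (h : 8 * (E * b) ≤ U * a) :
    (b - a) * (2 * U + 6 * E) < 2 * U * b - U * x - cs := by
  have h0 : 0 < U * a := mul_pos hU ha
  have h1 : 0 ≤ E * a := by positivity
  have : U * x ≤ U * a := by gcongr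
  nlinarith

end Pool.Agent.P.MP_0d06a5_lc
end

-- part Pool.Agent.P.MP_0d06a5_lc.Wire
section

/-! The point configuration attached to a list of records, and its orientation signs. -/

namespace Pool.Agent.P.MP_0d06a5_lc

/-- A record: type, threshold, lower expiry, upper expiry. -/
abbrev Rec := ℕ × ℕ × ℕ × ℕ

/-- The record number `k`. -/
def rc (R : List Rec) (k : ℕ) : Rec := R.getD k (0, 0, 0, 0)

/-- The conflict relation between an earlier record `i` and a later record `j`. -/
def Adj (R : List Rec) (i j : ℕ) : Prop :=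
  ((rc R j).1 = 1 ∧ (rc R i).1 ≠ 1 ∧ (rc R j).2.1 ≤ i ∧ j < (rc R i).2.2.1) ∨
  ((rc R j).1 = 2 ∧ (rc R i).1 ≠ 2 ∧ (rc R j).2.1 ≤ i ∧ j < (rc R i).2.2.2)

/-- Period. -/
def W (R : List Rec) : ℕ := 2 * R.length + 2
/-- Time of record `k`. -/
def vt (R : List Rec) (k : ℕ) : ℕ := k * W R + (2 * R.length + 1)
/-- Total time. -/
def TT (R : List Rec) : ℕ := vt R R.length
/-- Clipped powers of eight. -/
def pw (R : List Rec) (t : ℕ) : ℤ := ((8 ^ min t (2 * TT R) : ℕ) : ℤ)
/-- Times of records. -/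
def isV (R : List Rec) (t : ℕ) : Prop := t % W R = 2 * R.length + 1
instance (R : List Rec) (t : ℕ) : Decidable (isV R t) := by unfold isV; infer_instance
/-- Unit of height. -/
def UU (R : List Rec) : ℤ := pw R (TT R)
/-- Height of the far points. -/
def YY (R : List Rec) : ℤ := 21 * UU R * UU R
/-- One-sided offset. -/
def cm (R : List Rec) (own t : ℕ) : ℤ :=
  if isV R t ∧ (rc R (t / W R)).1 = own then
    2 * UU R * pw R t - UU R * pw R (vt R (min (rc R (t / W R)).2.1 (t / W R))) else 0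
/-- Distance of an end point from the horizontal axis. -/
def hm (R : List Rec) (own e t : ℕ) : ℤ :=
  if isV R t then
    if (rc R (t / W R)).1 = own then 4 * UU R
    else 2 * UU R + 6 * pw R (t + TT R - vt R (min (max e (t / W R + 1)) R.length))
  else YY R
/-- Offset. -/
def cc (R : List Rec) (t : ℕ) : ℤ := cm R 2 t - cm R 1 t
/-- Height of an end point. -/
def hh (R : List Rec) (a : Bool × ℕ) : ℤ :=
  bif a.1 then hm R 2 (rc R (a.2 / W R)).2.2.2 a.2 else -hm R 1 (rc R (a.2 / W R)).2.2.1 a.2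
/-- Unperturbed end points. -/
def base (R : List Rec) (a : Bool × ℕ) : Pt := (cc R a.2 - pw R a.2 * hh R a, hh R a)

variable {R : List Rec}

theorem pw_eq {t : ℕ} (h : t ≤ 2 * TT R) : pw R t = 8 ^ t := by
  simp [pw, min_eq_left h]

theorem pw_pos (t : ℕ) : 0 < pw R t := by unfold pw; positivity

theorem UU_pos : 0 < UU R := pw_pos _

theorem pw_le {s t : ℕ} (h : s ≤ t) : pw R s ≤ pw R t := by
  unfold pw
  exact_mod_cast Nat.pow_le_pow_right (by norm_num) (by omega)

theorem pw_lt {s t : ℕ} (h : s < t) (ht : t ≤ TT R) : 8 * pw R s ≤ pw R t := by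
  rw [pw_eq (by omega), pw_eq (by omega), ← pow_succ']
  exact pow_le_pow_right₀ (by norm_num) h

theorem pw_add {s t : ℕ} (h : s + t ≤ 2 * TT R) : pw R s * pw R t = 8 ^ (s + t) := by
  rw [pw_eq (by omega), pw_eq (by omega), pow_add]

theorem vt_lt {i j : ℕ} : vt R i < vt R j ↔ i < j := by
  unfold vt
  rw [add_lt_add_iff_right]
  exact Nat.mul_lt_mul_right (by unfold W; omega)

theorem vt_le {i j : ℕ} : vt R i ≤ vt R j ↔ i ≤ j := by
  rw [← not_lt, vt_lt, not_lt]

theorem vt_div (k : ℕ) : vt R k / W R = k := by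
  unfold vt
  rw [mul_comm, Nat.mul_add_div (by unfold W; omega), Nat.div_eq_of_lt (by unfold W; omega)]
  rfl

theorem isV_vt (k : ℕ) : isV R (vt R k) := by
  unfold isV vt
  rw [mul_comm, Nat.mul_add_mod, Nat.mod_eq_of_lt (by unfold W; omega)]

theorem vt_of_isV {t : ℕ} (h : isV R t) : vt R (t / W R) = t := by
  unfold isV at h
  unfold vt
  rw [← h, mul_comm, Nat.div_add_mod]

theorem cm_bd (own t : ℕ) : 0 ≤ cm R own t ∧ cm R own t ≤ 2 * UU R * pw R t := by
  have h1 := pw_pos (R := R) t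
  have h2 := UU_pos (R := R)
  unfold cm
  split_ifs with h
  · have h3 := pw_pos (R := R) (vt R (min (rc R (t / W R)).2.1 (t / W R)))
    have h4 : pw R (vt R (min (rc R (t / W R)).2.1 (t / W R))) ≤ pw R t :=
      pw_le (by conv_rhs => rw [← vt_of_isV h.1]
                exact vt_le.2 (min_le_right _ _))
    constructor <;> nlinarith
  · exact ⟨le_rfl, by positivity⟩

theorem four_le_YY : 4 * UU R ≤ YY R := by
  have h2 := UU_pos (R := R)
  unfold YY; nlinarith

theorem hm_ge (own e t : ℕ) : 2 * UU R ≤ hm R own e t := by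
  have h2 := UU_pos (R := R)
  have := four_le_YY (R := R)
  unfold hm
  split_ifs
  · linarith
  · have := pw_pos (R := R) (t + TT R - vt R (min (max e (t / W R + 1)) R.length))
    linarith
  · linarith

theorem div_lt_of_isV {t : ℕ} (h : isV R t) (ht : t < TT R) : t / W R < R.length := by
  rw [← vt_lt (R := R), vt_of_isV h]; exact ht

theorem hm_le {own e t : ℕ} (h : isV R t) (ht : t < TT R) : hm R own e t ≤ 4 * UU R := by
  unfold hm
  rw [if_pos h]
  split_ifs
  · exact le_rfl
  · have h1 := div_lt_of_isV h ht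
    have h2 : vt R (t / W R) < vt R (min (max e (t / W R + 1)) R.length) := vt_lt.2 (by omega)
    rw [vt_of_isV h] at h2
    have h3 := pw_lt (R := R) (s := t + TT R - vt R (min (max e (t / W R + 1)) R.length))
      (t := TT R) (by omega) le_rfl
    have := pw_pos (R := R) (t + TT R - vt R (min (max e (t / W R + 1)) R.length))
    unfold UU; linarith

theorem hm_far {own e t : ℕ} (h : ¬ isV R t) : hm R own e t = YY R := by simp [hm, h]

theorem cm_far {own t : ℕ} (h : ¬ isV R t) : cm R own t = 0 := by simp [cm, h]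

theorem late {own oth : ℕ} (e : ℕ) {s t : ℕ} (hst : s < t) (ht : t < TT R) :
    (cm R own t - cm R oth t) - (cm R own s - cm R oth s) < (pw R t - pw R s) * hm R own e t := by
  have a1 := cm_bd (R := R) own t
  have a2 := cm_bd (R := R) oth t
  have a3 := cm_bd (R := R) own s
  have a4 := cm_bd (R := R) oth s
  refine ineq1 (pw_pos s) (pw_lt hst ht.le) UU_pos (by linarith) (by linarith) (hm_ge _ _ _) ?_
  by_cases h : isV R t ∧ (rc R (t / W R)).1 = own
  · right; simp [hm, h.1, h.2]
  · left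
    have : cm R own t = 0 := by simp only [cm, h, if_false]
    linarith

theorem early_ok {own oth : ℕ} (hne : own ≠ oth) {e s t : ℕ} (hst : s < t) (ht : t < TT R)
    (h : ¬ (isV R s ∧ isV R t ∧ (rc R (t / W R)).1 = own ∧ (rc R (s / W R)).1 ≠ own ∧
      (rc R (t / W R)).2.1 ≤ s / W R ∧ t / W R < e)) :
    (cm R own t - cm R oth t) - (cm R own s - cm R oth s) < (pw R t - pw R s) * hm R own e s := by
  have a1 := cm_bd (R := R) own t
  have a2 := cm_bd (R := R) oth t
  have a3 := cm_bd (R := R) own s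
  have a4 := cm_bd (R := R) oth s
  have b1 := pw_pos (R := R) s
  have b2 := pw_lt hst ht.le
  have b3 := UU_pos (R := R)
  have b4 := hm_ge (R := R) own e s
  by_cases h1 : isV R t ∧ (rc R (t / W R)).1 = own
  swap
  · refine ineq1 b1 b2 b3 (by linarith) (by linarith) b4 (Or.inl ?_)
    have : cm R own t = 0 := by simp only [cm, h1, if_false]
    linarith
  by_cases h2 : isV R s ∧ (rc R (s / W R)).1 ≠ own
  swap
  · refine ineq1 b1 b2 b3 (by linarith) (by linarith) b4 (Or.inr ?_)
    by_cases h3 : isV R s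
    · have : (rc R (s / W R)).1 = own := by tauto
      simp [hm, h3, this]
    · rw [hm_far h3]; exact four_le_YY
  have c1 : s / W R < t / W R := by rw [← vt_lt (R := R), vt_of_isV h1.1, vt_of_isV h2.1]; exact hst
  have c2 := div_lt_of_isV h1.1 ht
  have c3 : cm R oth t = 0 := by
    have : ¬ (isV R t ∧ (rc R (t / W R)).1 = oth) := fun h' => hne (h1.2.symm.trans h'.2)
    simp only [cm, this, if_false]
  by_cases h3 : (rc R (t / W R)).2.1 ≤ s / W R
  · have h4 : e ≤ t / W R := by by_contra h'; exact h ⟨h2.1, h1.1, h1.2, h2.2, h3, by omega⟩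
    have c4 : vt R (min (max e (s / W R + 1)) R.length) ≤ t := by
      conv_rhs => rw [← vt_of_isV h1.1]
      exact vt_le.2 (by omega)
    have c5 : s < vt R (min (max e (s / W R + 1)) R.length) := by
      conv_lhs => rw [← vt_of_isV h2.1]
      exact vt_lt.2 (by omega)
    simp only [hm, h2.1, h2.2, if_true, if_false]
    refine ineq3 b1 b2 b3 (pw_pos _).le (by linarith) (by linarith) ?_
    unfold UU
    rw [pw_add (by omega), pw_add (by omega)]
    exact pow_le_pow_right₀ (by norm_num) (by omega)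
  · have c4 : s < vt R (min (rc R (t / W R)).2.1 (t / W R)) := by
      conv_lhs => rw [← vt_of_isV h2.1]
      exact vt_lt.2 (by omega)
    have c5 : vt R (min (rc R (t / W R)).2.1 (t / W R)) ≤ TT R := vt_le.2 (by omega)
    have c6 : cm R own t = 2 * UU R * pw R t -
        UU R * pw R (vt R (min (rc R (t / W R)).2.1 (t / W R))) := by simp only [cm, h1, and_self, if_true]
    rw [c3, c6, sub_zero]
    exact ineq2 b1 b2 b3 (pw_lt c4 c5) (by linarith) b4

theorem early_bad {own oth : ℕ} (hne : own ≠ oth) {e s t : ℕ} (hst : s < t) (ht : t < TT R)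
    (h : isV R s ∧ isV R t ∧ (rc R (t / W R)).1 = own ∧ (rc R (s / W R)).1 ≠ own ∧
      (rc R (t / W R)).2.1 ≤ s / W R ∧ t / W R < e) :
    (pw R t - pw R s) * hm R own e s < (cm R own t - cm R oth t) - (cm R own s - cm R oth s) := by
  obtain ⟨hs, ht', h1, h2, h3, h4⟩ := h
  have a4 := cm_bd (R := R) oth s
  have c1 : s / W R < t / W R := by rw [← vt_lt (R := R), vt_of_isV hs, vt_of_isV ht']; exact hst
  have c2 := div_lt_of_isV ht' ht
  have c3 : cm R oth t = 0 := by
    have : ¬ (isV R t ∧ (rc R (t / W R)).1 = oth) := fun h' => hne (h1.symm.trans h'.2)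
    simp only [cm, this, if_false]
  have c3' : cm R own s = 0 := by simp only [cm, h2, and_false, if_false]
  have c6 : cm R own t = 2 * UU R * pw R t -
      UU R * pw R (vt R (min (rc R (t / W R)).2.1 (t / W R))) := by
    simp only [cm, ht', h1, and_self, if_true]
  have c4 : t < vt R (min (max e (s / W R + 1)) R.length) := by
    conv_lhs => rw [← vt_of_isV ht']
    exact vt_lt.2 (by omega)
  have c5 : vt R (min (max e (s / W R + 1)) R.length) ≤ TT R := vt_le.2 (by omega)
  have c7 : vt R (min (rc R (t / W R)).2.1 (t / W R)) ≤ s := by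
    conv_rhs => rw [← vt_of_isV hs]
    exact vt_le.2 (by omega)
  rw [c3, c6, sub_zero]
  simp only [hm, hs, h2, if_true, if_false]
  refine ineq4 (pw_pos s) UU_pos (pw_pos _).le (pw_le c7) (by linarith) ?_
  unfold UU
  rw [pw_add (by omega), pw_add (by omega), ← pow_succ']
  exact pow_le_pow_right₀ (by norm_num) (by omega)

end Pool.Agent.P.MP_0d06a5_lc
end

-- part Pool.Agent.P.MP_0d06a5_lc.Signs
section

/-! Orientation signs in the perturbed configuration. -/

namespace Pool.Agent.P.MP_0d06a5_lc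

/-- Index of a label. -/
def idx (a : Bool × ℕ) : ℤ := ((2 * a.2 + a.1.toNat : ℕ) : ℤ)
/-- Number of labels. -/
def mm (R : List Rec) : ℤ := ((2 * TT R : ℕ) : ℤ)
/-- Scaling factor. -/
def NN (R : List Rec) : ℤ := 8 * (UU R * YY R) * (mm R * mm R) + mm R * mm R * mm R + 1
/-- The point with a given label. -/
def pt (R : List Rec) (a : Bool × ℕ) : Pt := pert (NN R) (base R a) (idx a)
/-- The configuration. -/
def pts (R : List Rec) : List Pt :=
  (List.range (TT R)).flatMap fun t => [pt R (true, t), pt R (false, t)]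
/-- The segment with both end points at time `t`. -/
def wire (R : List Rec) (t : ℕ) : Pt × Pt := (pt R (true, t), pt R (false, t))

variable {R : List Rec}

theorem mem_pts {p : Pt} : p ∈ pts R ↔ ∃ a : Bool × ℕ, a.2 < TT R ∧ pt R a = p := by
  simp only [pts, List.mem_flatMap, List.mem_range, List.mem_cons, List.not_mem_nil, or_false]
  constructor
  · rintro ⟨t, ht, rfl | rfl⟩
    · exact ⟨(true, t), ht, rfl⟩
    · exact ⟨(false, t), ht, rfl⟩
  · rintro ⟨⟨_ | _, t⟩, ht, rfl⟩
    · exact ⟨t, ht, Or.inr rfl⟩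
    · exact ⟨t, ht, Or.inl rfl⟩

theorem idx_bd {a : Bool × ℕ} (h : a.2 < TT R) : 0 ≤ idx a ∧ idx a < mm R := by
  have := Bool.toNat_le a.1
  unfold idx mm
  omega

theorem idx_inj {a b : Bool × ℕ} (h : idx a = idx b) : a = b := by
  obtain ⟨_ | _, s⟩ := a <;> obtain ⟨_ | _, t⟩ := b <;> simp [idx] at h ⊢ <;> omega

theorem hh_fin {a : Bool × ℕ} (h : isV R a.2) (ha : a.2 < TT R) : |hh R a| ≤ 4 * UU R := by
  have h0 := UU_pos (R := R)
  obtain ⟨_ | _, t⟩ := a
  · have h1 := hm_le (own := 1) (e := (rc R (t / W R)).2.2.1) h ha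
    have h2 := hm_ge (R := R) 1 (rc R (t / W R)).2.2.1 t
    simp only [hh, cond_false, abs_le] at *; constructor <;> linarith
  · have h1 := hm_le (own := 2) (e := (rc R (t / W R)).2.2.2) h ha
    have h2 := hm_ge (R := R) 2 (rc R (t / W R)).2.2.2 t
    simp only [hh, cond_true, abs_le] at *; constructor <;> linarith

theorem base_fin {a : Bool × ℕ} (h : isV R a.2) (ha : a.2 < TT R) :
    |(base R a).1| ≤ 6 * UU R * UU R ∧ |(base R a).2| ≤ 4 * UU R := by
  refine ⟨?_, hh_fin h ha⟩
  have h0 := UU_pos (R := R)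
  have h1 := pw_pos (R := R) a.2
  have h2 : pw R a.2 ≤ UU R := pw_le ha.le
  have h3 := abs_mul_le' (a := pw R a.2) (A := UU R) (by rwa [abs_of_pos h1]) (hh_fin h ha)
  have a1 := cm_bd (R := R) 1 a.2
  have a2 := cm_bd (R := R) 2 a.2
  have h4 : UU R * pw R a.2 ≤ UU R * UU R := by gcongr
  simp only [base, cc, abs_le] at *
  constructor <;> nlinarith [h3.1, h3.2]

theorem base_far {t : ℕ} (h : ¬ isV R t) :
    base R (true, t) = (-(pw R t * YY R), YY R) ∧ base R (false, t) = (pw R t * YY R, -YY R) := by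
  simp [base, cc, hh, hm_far h, cm_far h]

theorem base_bd {a : Bool × ℕ} (ha : a.2 < TT R) :
    |(base R a).1| ≤ UU R * YY R ∧ |(base R a).2| ≤ UU R * YY R := by
  have h0 := UU_pos (R := R)
  have h5 := four_le_YY (R := R)
  by_cases h : isV R a.2
  · have := base_fin h ha
    refine ⟨this.1.trans ?_, this.2.trans ?_⟩
    · unfold YY; nlinarith [mul_pos h0 h0]
    · nlinarith
  · have h1 := pw_pos (R := R) a.2
    have h2 : pw R a.2 ≤ UU R := pw_le ha.le
    have h3 : pw R a.2 * YY R ≤ UU R * YY R := by gcongr; linarith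
    have h4 : 0 < pw R a.2 * YY R := mul_pos h1 (by linarith)
    obtain ⟨_ | _, t⟩ := a
    · rw [(base_far h).2]; simp only [abs_le] at *; refine ⟨⟨?_, ?_⟩, ?_, ?_⟩ <;> nlinarith
    · rw [(base_far h).1]; simp only [abs_le] at *; refine ⟨⟨?_, ?_⟩, ?_, ?_⟩ <;> nlinarith

theorem ori_pt {a b c : Bool × ℕ} (ha : a.2 < TT R) (hb : b.2 < TT R) (hc : c.2 < TT R) :
    (0 < ori (base R a) (base R b) (base R c) → 0 < ori (pt R a) (pt R b) (pt R c)) ∧
    (ori (base R a) (base R b) (base R c) < 0 → ori (pt R a) (pt R b) (pt R c) < 0) ∧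
    (a ≠ b → a ≠ c → b ≠ c → ori (pt R a) (pt R b) (pt R c) ≠ 0) := by
  obtain ⟨o, h1, h2, h3⟩ := ori_pert (N := NN R) (base_bd ha).1 (base_bd ha).2 (base_bd hb).1
    (base_bd hb).2 (base_bd hc).1 (base_bd hc).2 (idx_bd ha).1 (idx_bd ha).2 (idx_bd hb).1
    (idx_bd hb).2 (idx_bd hc).1 (idx_bd hc).2
  have hN : 8 * (UU R * YY R) * (mm R * mm R) + mm R * mm R * mm R < NN R := by
    unfold NN; linarith
  unfold pt
  rw [h3]
  refine ⟨dom_pos hN h1 h2, dom_neg hN h1 h2, fun e1 e2 e3 => dom_ne hN h1 h2 ?_⟩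
  refine mul_ne_zero (mul_ne_zero ?_ ?_) ?_ <;> rw [sub_ne_zero]
  · exact fun h => e1 (idx_inj h).symm
  · exact fun h => e2 (idx_inj h).symm
  · exact fun h => e3 (idx_inj h).symm

theorem pt_inj {a b : Bool × ℕ} (ha : a.2 < TT R) (hb : b.2 < TT R) (h : pt R a = pt R b) :
    a = b := by
  refine idx_inj (pert_inj (m := mm R) ?_ (idx_bd ha).1 (idx_bd ha).2 (idx_bd hb).1 (idx_bd hb).2 h)
  have h0 := UU_pos (R := R)
  have h5 := four_le_YY (R := R)
  have h1 : 1 ≤ mm R := by linarith [(idx_bd ha).1, (idx_bd ha).2]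
  have h2 : 0 ≤ 8 * (UU R * YY R) * (mm R * mm R) := by
    have : 0 ≤ YY R := by linarith
    positivity
  unfold NN; nlinarith [mul_self_nonneg (mm R)]

theorem generalPosition_pts : GeneralPosition (pts R) := by
  constructor
  · rw [pts, List.nodup_flatMap]
    refine ⟨fun t ht => ?_, ?_⟩
    · have ht' := List.mem_range.1 ht
      have : pt R (true, t) ≠ pt R (false, t) := fun h => by simpa using pt_inj ht' ht' h
      simp [this]
    · refine List.nodup_range.pairwise_of_forall_ne fun s hs t ht hst => ?_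
      have hs' := List.mem_range.1 hs
      have ht' := List.mem_range.1 ht
      have : ∀ e e', pt R (e, s) ≠ pt R (e', t) := fun e e' h =>
        hst (congrArg Prod.snd (pt_inj hs' ht' h))
      simp [Function.onFun, List.disjoint_left, this]
  · intro p hp q hq r hr h1 h2 h3
    obtain ⟨a, ha, rfl⟩ := mem_pts.1 hp
    obtain ⟨b, hb, rfl⟩ := mem_pts.1 hq
    obtain ⟨c, hc, rfl⟩ := mem_pts.1 hr
    exact not_collinear ((ori_pt ha hb hc).2.2 (fun h => h1 (by rw [h])) (fun h => h2 (by rw [h]))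
      (fun h => h3 (by rw [h])))

/-- Position of the point `a` relative to the line of time `u`. -/
def side (R : List Rec) (u : ℕ) (a : Bool × ℕ) : ℤ :=
  cc R a.2 - cc R u - (pw R a.2 - pw R u) * hh R a

theorem side_sign {u : ℕ} {a : Bool × ℕ} (hu : u < TT R) (ha : a.2 < TT R) :
    (0 < side R u a → 0 < ori (pt R (true, u)) (pt R (false, u)) (pt R a)) ∧
    (side R u a < 0 → ori (pt R (true, u)) (pt R (false, u)) (pt R a) < 0) := by
  have e : ori (base R (true, u)) (base R (false, u)) (base R a) =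
      (hh R (true, u) - hh R (false, u)) * side R u a := by
    simp only [ori, base, side]; ring
  have h : 0 < hh R (true, u) - hh R (false, u) := by
    have h0 := UU_pos (R := R)
    have h1 := hm_ge (R := R) 1 (rc R (u / W R)).2.2.1 u
    have h2 := hm_ge (R := R) 2 (rc R (u / W R)).2.2.2 u
    simp only [hh, cond_true, cond_false]; linarith
  have := ori_pt (R := R) (a := (true, u)) (b := (false, u)) hu hu ha
  rw [e] at this
  exact ⟨fun h' => this.1 (mul_pos h h'), fun h' => this.2.1 (mul_neg_of_pos_of_neg h h')⟩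

theorem late_up {s t : ℕ} (hst : s < t) (ht : t < TT R) : side R s (true, t) < 0 := by
  have := late (R := R) (own := 2) (oth := 1) (rc R (t / W R)).2.2.2 hst ht
  simp only [side, cc, hh, cond_true]; linarith

theorem late_dn {s t : ℕ} (hst : s < t) (ht : t < TT R) : 0 < side R s (false, t) := by
  have := late (R := R) (own := 1) (oth := 2) (rc R (t / W R)).2.2.1 hst ht
  simp only [side, cc, hh, cond_false]; linarith

theorem early_up {s t : ℕ} (hst : s < t) (ht : t < TT R)
    (h : ¬ (isV R s ∧ isV R t ∧ (rc R (t / W R)).1 = 2 ∧ (rc R (s / W R)).1 ≠ 2 ∧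
      (rc R (t / W R)).2.1 ≤ s / W R ∧ t / W R < (rc R (s / W R)).2.2.2)) :
    0 < side R t (true, s) := by
  have := early_ok (R := R) (own := 2) (oth := 1) (by norm_num) hst ht h
  simp only [side, cc, hh, cond_true]; linarith

theorem early_dn {s t : ℕ} (hst : s < t) (ht : t < TT R)
    (h : ¬ (isV R s ∧ isV R t ∧ (rc R (t / W R)).1 = 1 ∧ (rc R (s / W R)).1 ≠ 1 ∧
      (rc R (t / W R)).2.1 ≤ s / W R ∧ t / W R < (rc R (s / W R)).2.2.1)) :
    side R t (false, s) < 0 := by
  have := early_ok (R := R) (own := 1) (oth := 2) (by norm_num) hst ht h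
  simp only [side, cc, hh, cond_false]; linarith

theorem X_wire {s t : ℕ} (hst : s < t) (ht : t < TT R)
    (h : ¬ (isV R s ∧ isV R t ∧ Adj R (s / W R) (t / W R))) : X (wire R s) (wire R t) := by
  have hs := hst.trans ht
  refine ⟨mul_neg_of_neg_of_pos ((side_sign hs ht).2 (late_up hst ht))
    ((side_sign hs ht).1 (late_dn hst ht)),
    mul_neg_of_pos_of_neg ((side_sign ht hs).1 (early_up hst ht ?_))
    ((side_sign ht hs).2 (early_dn hst ht ?_))⟩
  · exact fun h' => h ⟨h'.1, h'.2.1, Or.inr h'.2.2⟩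
  · exact fun h' => h ⟨h'.1, h'.2.1, Or.inl h'.2.2⟩

theorem not_X_wire {s t : ℕ} (hst : s < t) (ht : t < TT R) (h1 : isV R s) (h2 : isV R t)
    (h : Adj R (s / W R) (t / W R)) :
    0 < ori (pt R (true, t)) (pt R (false, t)) (pt R (true, s)) *
      ori (pt R (true, t)) (pt R (false, t)) (pt R (false, s)) := by
  have hs := hst.trans ht
  rcases h with h | h
  · refine mul_pos ((side_sign ht hs).1 (early_up hst ht fun h' => ?_)) ((side_sign ht hs).1 ?_)
    · have := h'.2.2.1; have := h.1; omega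
    · have := early_bad (R := R) (own := 1) (oth := 2) (by norm_num) hst ht ⟨h1, h2, h⟩
      simp only [side, cc, hh, cond_false]; linarith
  · refine mul_pos_of_neg_of_neg ((side_sign ht hs).2 ?_)
      ((side_sign ht hs).2 (early_dn hst ht fun h' => ?_))
    · have := early_bad (R := R) (own := 2) (oth := 1) (by norm_num) hst ht ⟨h1, h2, h⟩
      simp only [side, cc, hh, cond_true]; linarith
    · have := h'.2.2.1; have := h.1; omega

theorem sep_pos {u : ℕ} {a : Bool × ℕ} (hu : u < TT R) (hf : ¬ isV R u) (ha : a.2 < TT R)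
    (hne : a.2 ≠ u) (h : a.1 = true ↔ a.2 < u) :
    0 < ori (pt R (true, u)) (pt R (false, u)) (pt R a) := by
  refine (side_sign hu ha).1 ?_
  obtain ⟨_ | _, t⟩ := a
  · exact late_dn (by simp at h hne; omega) ha
  · exact early_up (by simpa using h) hu fun h' => hf h'.2.1

theorem sep_neg {u : ℕ} {a : Bool × ℕ} (hu : u < TT R) (hf : ¬ isV R u) (ha : a.2 < TT R)
    (hne : a.2 ≠ u) (h : ¬ (a.1 = true ↔ a.2 < u)) :
    ori (pt R (true, u)) (pt R (false, u)) (pt R a) < 0 := by
  refine (side_sign hu ha).2 ?_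
  obtain ⟨_ | _, t⟩ := a
  · exact early_dn (by simpa using h) hu fun h' => hf h'.2.1
  · exact late_up (by simp at h hne; omega) ha

theorem far_same {u v : ℕ} (huv : u < v) (hv : v < TT R) (hu' : ¬ isV R u) (hv' : ¬ isV R v)
    (e : Bool) {c : Bool × ℕ} (hc : c.2 < TT R) (h : ori (pt R (e, u)) (pt R (e, v)) (pt R c) < 0) :
    ¬ isV R c.2 ∧ c.1 = e := by
  by_contra hn
  refine lt_asymm h ((ori_pt (a := (e, u)) (b := (e, v)) (huv.trans hv) hv hc).1 ?_)
  have h0 := UU_pos (R := R)
  have h5 : 4 * UU R < YY R := by unfold YY; nlinarith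
  have h1 := pw_lt huv hv.le
  have h2 := pw_pos (R := R) u
  have h3 : 0 < (pw R v - pw R u) * YY R := mul_pos (by linarith) (by linarith)
  have h4 : |(base R c).2| < YY R ∨ (base R c).2 = -(base R (e, u)).2 := by
    by_cases hcv : isV R c.2
    · exact Or.inl ((base_fin hcv hc).2.trans_lt h5)
    · right
      obtain ⟨_ | _, t⟩ := c <;> cases e <;> simp [hcv, base_far hcv, base_far hu'] at hn ⊢
  rw [abs_lt] at h4
  cases e
  · simp only [ori, base_far hu', base_far hv'] at h4 ⊢
    rcases h4 with h4 | h4 <;> nlinarith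
  · simp only [ori, base_far hu', base_far hv'] at h4 ⊢
    rcases h4 with h4 | h4 <;> nlinarith

theorem far_skew {u v : ℕ} (huv : u < v) (hv : v < TT R) (hu' : ¬ isV R u) (hv' : ¬ isV R v)
    (e : Bool) {c : Bool × ℕ} (hc : c.2 < TT R)
    (h : 0 < ori (pt R (e, u)) (pt R (!e, v)) (pt R c)) :
    ¬ isV R c.2 ∧ ((c.1 = e ∧ c.2 < u) ∨ (c.1 = !e ∧ v < c.2)) := by
  by_contra hn
  have n1 : c ≠ (e, u) := by rintro rfl; simp [ori] at h
  have n2 : c ≠ (!e, v) := by rintro rfl; simp [ori, mul_comm] at h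
  refine lt_asymm h ((ori_pt (a := (e, u)) (b := (!e, v)) (huv.trans hv) hv hc).2.1 ?_)
  have h0 := UU_pos (R := R)
  have h5 : 0 < YY R := by unfold YY; positivity
  have h1 := pw_lt huv hv.le
  have h2 := pw_pos (R := R) u
  have h3 : pw R v ≤ UU R := pw_le hv.le
  by_cases hcv : isV R c.2
  · obtain ⟨b1, b2⟩ := base_fin hcv hc
    have b3 := abs_mul_le' (a := pw R u + pw R v) (A := 2 * UU R)
      (by rw [abs_of_pos (by linarith)]; linarith) b2
    have b4 : YY R * 1 ≤ YY R * (pw R v - pw R u) := by gcongr; linarith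
    have b5 : YY R = 21 * UU R * UU R := rfl
    have b6 := mul_pos h0 h0
    rw [abs_le] at b1 b3
    cases e
    · have : ori (base R (false, u)) (base R (true, v)) (base R c) = YY R *
          (-((pw R u + pw R v) * (base R c).2) - 2 * (base R c).1 - YY R * (pw R v - pw R u)) := by
        simp only [ori, base_far hu', base_far hv']; ring
      rw [Bool.not_false, this]
      exact mul_neg_of_pos_of_neg h5 (by linarith [b1.1, b3.1])
    · have : ori (base R (true, u)) (base R (false, v)) (base R c) = YY R *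
          ((pw R u + pw R v) * (base R c).2 + 2 * (base R c).1 - YY R * (pw R v - pw R u)) := by
        simp only [ori, base_far hu', base_far hv']; ring
      rw [Bool.not_true, this]
      exact mul_neg_of_pos_of_neg h5 (by linarith [b1.2, b3.2])
  · obtain ⟨e', t⟩ := c
    have h6 := mul_pos h5 h5
    have h7 := pw_pos (R := R) t
    by_cases he : e' = e
    · subst he
      have : u < t := by simp [hcv] at hn n1; omega
      have := pw_lt this hc.le
      cases e' <;> simp only [ori, base_far hu', base_far hv', base_far hcv, Bool.not_true,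
        Bool.not_false] <;> nlinarith
    · obtain rfl : e' = !e := by cases e <;> cases e' <;> simp at he ⊢
      have : t < v := by simp [hcv] at hn n2; omega
      have := pw_lt this hv.le
      cases e <;> simp only [ori, base_far hu', base_far hv', base_far hcv, Bool.not_true,
        Bool.not_false] <;> nlinarith

end Pool.Agent.P.MP_0d06a5_lc
end

-- part Pool.Agent.P.MP_0d06a5_lc.Upper
section

/-! The largest crossing family of the configuration versus independent sets of records. -/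

namespace Pool.Agent.P.MP_0d06a5_lc

open Finset

theorem ori_swap (p q r : Pt) : ori q p r = -ori p q r := by simp only [ori]; ring

theorem four {p q p' q' : Pt} (h1 : ori p p' q * ori p p' q' < 0)
    (h2 : ori p q p' * ori p q q' < 0) (h3 : ori p' q' p * ori p' q' q < 0) : False := by
  have e1 : ori p q p' = -ori p p' q := by simp only [ori]; ring
  have e2 : ori p' q' p = ori p p' q' := by simp only [ori]; ring
  have e3 : ori p' q' q = ori p p' q' - ori p p' q - ori p q q' := by simp only [ori]; ring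
  rw [e1] at h2
  rw [e2, e3] at h3
  generalize ori p p' q = A at *
  generalize ori p p' q' = B at *
  generalize ori p q q' = C at *
  rcases lt_trichotomy A 0 with h | h | h
  · have : 0 < B := by nlinarith
    have : C < 0 := by nlinarith
    nlinarith
  · simp [h] at h1
  · have : B < 0 := by nlinarith
    have : 0 < C := by nlinarith
    nlinarith

/-- Labels. -/
abbrev Lb := Bool × ℕ

/-- `g` has the end points `a` and `b`. -/
def Has (g : Lb × Lb) (a b : Lb) : Prop := g = (a, b) ∨ g = (b, a)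

theorem Has.symm {g : Lb × Lb} {a b : Lb} (h : Has g a b) : Has g b a := Or.symm h

theorem has_self (g : Lb × Lb) : Has g g.1 g.2 := Or.inl rfl

/-- Times that are not record times. -/
def Fr (R : List Rec) : Finset ℕ := (range (TT R)).filter fun t => ¬ isV R t

/-- Number of such times. -/
def LL (R : List Rec) : ℕ := TT R - R.length

variable {R : List Rec}

theorem filter_isV : (range (TT R)).filter (isV R) = (range R.length).image (vt R) := by
  ext t
  simp only [mem_filter, mem_range, mem_image]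
  constructor
  · exact fun h => ⟨_, div_lt_of_isV h.2 h.1, vt_of_isV h.2⟩
  · rintro ⟨k, hk, rfl⟩
    exact ⟨vt_lt.2 hk, isV_vt k⟩

theorem vt_inj : Function.Injective (vt R) := fun i j h => by
  rw [← vt_div (R := R) i, h, vt_div]

theorem card_isV : ((range (TT R)).filter (isV R)).card = R.length := by
  rw [filter_isV, card_image_of_injective _ vt_inj, card_range]

theorem card_Fr : (Fr R).card = LL R := by
  have := card_filter_add_card_filter_not (s := range (TT R)) (isV R)
  rw [card_isV, card_range] at this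
  unfold LL Fr; omega

theorem mem_Fr {t : ℕ} : t ∈ Fr R ↔ t < TT R ∧ ¬ isV R t := by simp [Fr]

theorem block_mem {k j : ℕ} (hk : k ≤ R.length) (hj : j < 2 * R.length + 1) :
    k * W R + j ∈ Fr R := by
  rw [mem_Fr]
  constructor
  · have : vt R k ≤ TT R := vt_le.2 hk
    unfold vt at this; omega
  · unfold isV
    rw [mul_comm, Nat.mul_add_mod, Nat.mod_eq_of_lt (by unfold W; omega)]
    omega

/-- A crossing family of labelled segments. -/
structure Fam (R : List Rec) (G : Finset (Lb × Lb)) : Prop where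
  valid : ∀ g ∈ G, g.1.2 < TT R ∧ g.2.2 < TT R ∧ g.1 ≠ g.2
  cross : ∀ g ∈ G, ∀ g' ∈ G, g ≠ g' → X (pt R g.1, pt R g.2) (pt R g'.1, pt R g'.2)

/-- The segment of the non-record time `u` belongs to the family. -/
def Sep (R : List Rec) (G : Finset (Lb × Lb)) (u : ℕ) : Prop :=
  u ∈ Fr R ∧ ∃ g ∈ G, Has g (true, u) (false, u)

theorem card_le_of_end {β : Type} (G : Finset (Lb × Lb)) (B : Finset β) (φ : Lb → β)
    (P : Lb → Lb → Prop) (h1 : ∀ g ∈ G, ∃ a b, Has g a b ∧ P a b ∧ φ a ∈ B)
    (h2 : ∀ g ∈ G, ∀ g' ∈ G, g ≠ g' → ∀ a b c d, Has g a b → Has g' c d → P a b → P c d →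
      φ a ≠ φ c) : G.card ≤ B.card := by
  classical
  choose! a b hab using h1
  refine card_le_card_of_injOn (fun g => φ (a g)) (fun g hg => (hab g hg).2.2) fun g hg g' hg' e => ?_
  by_contra hne
  exact h2 g hg g' hg' hne _ _ _ _ (hab g hg).1 (hab g' hg').1 (hab g hg).2.1 (hab g' hg').2.1 e

theorem has_anti {g : Lb × Lb} {a b : Lb} (h : Has g a b) (h1 : a ≠ b) (h2 : a.2 = b.2) :
    Has g (true, a.2) (false, a.2) := by
  obtain ⟨e, s⟩ := a
  obtain ⟨e', t⟩ := b
  obtain rfl : s = t := h2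
  cases e <;> cases e'
  · simp at h1
  · exact h.symm
  · exact h
  · simp at h1

namespace Fam

variable {G : Finset (Lb × Lb)} (hG : Fam R G)
include hG

theorem val {g : Lb × Lb} (hg : g ∈ G) {a b : Lb} (h : Has g a b) :
    a.2 < TT R ∧ b.2 < TT R ∧ a ≠ b := by
  have := hG.valid g hg
  rcases h with rfl | rfl
  · exact this
  · exact ⟨this.2.1, this.1, this.2.2.symm⟩

theorem xl {g g' : Lb × Lb} (hg : g ∈ G) (hg' : g' ∈ G) (hne : g ≠ g') {a b c d : Lb}
    (h : Has g a b) (h' : Has g' c d) :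
    ori (pt R a) (pt R b) (pt R c) * ori (pt R a) (pt R b) (pt R d) < 0 := by
  have := (hG.cross g hg g' hg' hne).1
  rcases h with rfl | rfl <;> rcases h' with rfl | rfl <;> simp only at this
  · exact this
  · rwa [mul_comm]
  · rwa [ori_swap, ori_swap (pt R a), neg_mul_neg] at this
  · rwa [ori_swap, ori_swap (pt R a), neg_mul_neg, mul_comm] at this

theorem disj {g g' : Lb × Lb} (hg : g ∈ G) (hg' : g' ∈ G) (hne : g ≠ g') {a b c d : Lb}
    (h : Has g a b) (h' : Has g' c d) : a ≠ c := by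
  rintro rfl
  simpa [ori] using hG.xl hg hg' hne h h'

theorem ends {g g' : Lb × Lb} (hg : g ∈ G) (hg' : g' ∈ G) (hne : g ≠ g') {a b : Lb}
    (h : Has g a b) : (∃ c d, Has g' c d ∧ c.2 < TT R ∧ 0 < ori (pt R a) (pt R b) (pt R c)) ∧
      ∃ c d, Has g' c d ∧ c.2 < TT R ∧ ori (pt R a) (pt R b) (pt R c) < 0 := by
  have hv := hG.valid g' hg'
  rcases mul_neg_iff.1 (hG.xl hg hg' hne h (has_self g')) with h1 | h1
  · exact ⟨⟨_, _, has_self g', hv.1, h1.1⟩, _, _, (has_self g').symm, hv.2.1, h1.2⟩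
  · exact ⟨⟨_, _, (has_self g').symm, hv.2.1, h1.2⟩, _, _, has_self g', hv.1, h1.1⟩

theorem anti' (hL : LL R < G.card) {g : Lb × Lb} (hg : g ∈ G) {a b : Lb} (h : Has g a b)
    (ha : ¬ isV R a.2) (hb : ¬ isV R b.2) : ¬ a.2 < b.2 := by
  intro hlt
  obtain ⟨e, u⟩ := a
  obtain ⟨e', v⟩ := b
  obtain ⟨hu, hv, -⟩ := hG.val hg h
  simp only at ha hb hlt hu hv
  have hm : u ∈ Fr R := mem_Fr.2 ⟨hu, ha⟩
  have key : (G.erase g).card ≤ ((Fr R).erase u).card := by
    by_cases he : e' = e
    · subst he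
      refine card_le_of_end _ _ Prod.snd
        (fun c _ => c.2 < TT R ∧ ori (pt R (e', u)) (pt R (e', v)) (pt R c) < 0) ?_ ?_
      · intro g' hg'
        rw [mem_erase] at hg'
        obtain ⟨c, d, h1, h2, h3⟩ := (hG.ends hg hg'.2 hg'.1.symm h).2
        have h4 := far_same hlt hv ha hb e' h2 h3
        refine ⟨c, d, h1, ⟨h2, h3⟩, mem_erase.2 ⟨fun h5 => ?_, mem_Fr.2 ⟨h2, h4.1⟩⟩⟩
        exact hG.disj hg hg'.2 hg'.1.symm h h1 (Prod.ext h4.2.symm h5.symm)
      · intro g1 hg1 g2 hg2 hne a b c d h1 h2 p1 p2 e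
        refine hG.disj (mem_of_mem_erase hg1) (mem_of_mem_erase hg2) hne h1 h2 (Prod.ext ?_ e)
        rw [(far_same hlt hv ha hb e' p1.1 p1.2).2, (far_same hlt hv ha hb e' p2.1 p2.2).2]
    · obtain rfl : e' = !e := by cases e <;> cases e' <;> simp at he ⊢
      refine card_le_of_end _ _ Prod.snd
        (fun c _ => c.2 < TT R ∧ 0 < ori (pt R (e, u)) (pt R (!e, v)) (pt R c)) ?_ ?_
      · intro g' hg'
        rw [mem_erase] at hg'
        obtain ⟨c, d, h1, h2, h3⟩ := (hG.ends hg hg'.2 hg'.1.symm h).1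
        have h4 := far_skew hlt hv ha hb e h2 h3
        exact ⟨c, d, h1, ⟨h2, h3⟩, mem_erase.2 ⟨by omega, mem_Fr.2 ⟨h2, h4.1⟩⟩⟩
      · intro g1 hg1 g2 hg2 hne a b c d h1 h2 p1 p2 e'
        refine hG.disj (mem_of_mem_erase hg1) (mem_of_mem_erase hg2) hne h1 h2 (Prod.ext ?_ e')
        rcases (far_skew hlt hv ha hb e p1.1 p1.2).2 with q1 | q1 <;>
          rcases (far_skew hlt hv ha hb e p2.1 p2.2).2 with q2 | q2
        · rw [q1.1, q2.1]
        · omega
        · omega
        · rw [q1.1, q2.1]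
  rw [card_erase_of_mem hg, card_erase_of_mem hm, card_Fr] at key
  have := card_pos.2 ⟨u, hm⟩
  rw [card_Fr] at this
  omega

theorem anti (hL : LL R < G.card) {g : Lb × Lb} (hg : g ∈ G) {a b : Lb} (h : Has g a b)
    (ha : ¬ isV R a.2) (hb : ¬ isV R b.2) : a.2 = b.2 := by
  have h1 := hG.anti' hL hg h ha hb
  have h2 := hG.anti' hL hg h.symm hb ha
  omega

theorem exists_sep (hL : LL R < G.card) {k : ℕ} (hk : k ≤ R.length) :
    ∃ j < 2 * R.length + 1, Sep R G (k * W R + j) := by
  by_contra hn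
  push Not at hn
  have h1 : (G.filter fun g => ¬ isV R g.1.2 ∧ ¬ isV R g.2.2).card ≤
      (Fr R \ (range (2 * R.length + 1)).image fun j => k * W R + j).card := by
    refine card_le_of_end _ _ Prod.snd (fun a _ => a.1 = true) ?_ ?_
    · intro g hg
      rw [mem_filter] at hg
      have hv := hG.valid g hg.1
      have h2 := has_anti (has_self g) hv.2.2 (hG.anti hL hg.1 (has_self g) hg.2.1 hg.2.2)
      have hm : g.1.2 ∈ Fr R := mem_Fr.2 ⟨hv.1, hg.2.1⟩
      refine ⟨_, _, h2, rfl, mem_sdiff.2 ⟨hm, fun h3 => ?_⟩⟩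
      obtain ⟨j, hj, e⟩ := mem_image.1 h3
      simp only at e
      exact hn j (mem_range.1 hj) (by rw [e]; exact ⟨hm, g, hg.1, h2⟩)
    · intro g1 hg1 g2 hg2 hne a b c d h1 h2 p1 p2 e
      exact hG.disj (mem_filter.1 hg1).1 (mem_filter.1 hg2).1 hne h1 h2
        (Prod.ext (p1.trans p2.symm) e)
  have h2 : (G.filter fun g => ¬ (¬ isV R g.1.2 ∧ ¬ isV R g.2.2)).card ≤
      ((univ : Finset Bool) ×ˢ (range (TT R)).filter (isV R)).card := by
    refine card_le_of_end _ _ id (fun _ _ => True) ?_ ?_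
    · intro g hg
      rw [mem_filter] at hg
      have hv := hG.valid g hg.1
      by_cases h : isV R g.1.2
      · exact ⟨_, _, has_self g, trivial, by simp [h, hv.1]⟩
      · have h' : isV R g.2.2 := by tauto
        exact ⟨_, _, (has_self g).symm, trivial, by simp [h', hv.2.1]⟩
    · intro g1 hg1 g2 hg2 hne a b c d h1 h2 _ _
      exact hG.disj (mem_filter.1 hg1).1 (mem_filter.1 hg2).1 hne h1 h2
  have h3 := card_filter_add_card_filter_not (s := G) fun g => ¬ isV R g.1.2 ∧ ¬ isV R g.2.2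
  have hsub : ((range (2 * R.length + 1)).image fun j => k * W R + j) ⊆ Fr R := by
    intro t ht
    obtain ⟨j, hj, rfl⟩ := mem_image.1 ht
    exact block_mem hk (mem_range.1 hj)
  have h4 := card_le_card hsub
  rw [card_sdiff_of_subset hsub] at h1
  rw [card_image_of_injective _ (fun a b h => by simpa using h), card_range, card_Fr] at h1 h4
  rw [card_product, card_isV] at h2
  simp at h2 h3
  omega

theorem near (hL : LL R < G.card) {g : Lb × Lb} (hg : g ∈ G) {a b : Lb} (h : Has g a b)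
    (ha : isV R a.2) : a.1 ≠ b.1 ∧ ∀ u, Sep R G u → (a.2 < u ↔ b.2 < u) := by
  obtain ⟨va, vb, -⟩ := hG.val hg h
  have key : ∀ u, Sep R G u → ¬ ((a.1 = true ↔ a.2 < u) ↔ (b.1 = true ↔ b.2 < u)) := by
    rintro u ⟨hu, g', hg', h'⟩ hiff
    rw [mem_Fr] at hu
    have n1 : a.2 ≠ u := fun e => hu.2 (e ▸ ha)
    have hne : g' ≠ g := by
      rintro rfl
      rcases h with h | h <;> rcases h' with h' | h' <;> rw [h] at h' <;>
        simp only [Prod.ext_iff] at h' <;> omega
    have hx := hG.xl hg' hg hne h' h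
    have n2 : b.2 ≠ u := by
      rintro rfl
      obtain ⟨_ | _, t⟩ := b
      · exact hG.disj hg' hg hne h'.symm h.symm rfl
      · exact hG.disj hg' hg hne h' h.symm rfl
    by_cases h1 : a.1 = true ↔ a.2 < u
    · exact lt_asymm hx (mul_pos (sep_pos hu.1 hu.2 va n1 h1) (sep_pos hu.1 hu.2 vb n2 (hiff.1 h1)))
    · exact lt_asymm hx (mul_pos_of_neg_of_neg (sep_neg hu.1 hu.2 va n1 h1)
        (sep_neg hu.1 hu.2 vb n2 fun h2 => h1 (hiff.2 h2)))
  have hk := div_lt_of_isV ha va
  obtain ⟨j, hj, s1⟩ := hG.exists_sep hL hk.le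
  obtain ⟨j', -, s2⟩ := hG.exists_sep hL (k := a.2 / W R + 1) hk
  have e := vt_of_isV ha
  have k1 := key _ s1
  have k2 := key _ s2
  have hW : W R = 2 * R.length + 2 := rfl
  unfold vt at e
  rw [add_mul] at k2
  have hne : a.1 ≠ b.1 := by
    intro e'
    rw [e'] at k1 k2
    cases b.1 <;> simp at k1 k2 <;> omega
  refine ⟨hne, fun u hu => ?_⟩
  have := key u hu
  revert hne this
  cases a.1 <;> cases b.1 <;> simp <;> omega

theorem near_eq (hL : LL R < G.card) {s t : ℕ} (hs : isV R s) (ht : isV R t) (hs' : s < TT R)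
    (ht' : t < TT R) (h : ∀ u, Sep R G u → (s < u ↔ t < u)) : s = t := by
  have key : ∀ {s t : ℕ}, isV R s → isV R t → s < TT R → (∀ u, Sep R G u → (s < u ↔ t < u)) →
      ¬ s < t := by
    intro s t hs ht hs' h hlt
    obtain ⟨j, hj, s1⟩ := hG.exists_sep hL (k := s / W R + 1) (div_lt_of_isV hs hs')
    have c1 : s / W R < t / W R := by rw [← vt_lt (R := R), vt_of_isV hs, vt_of_isV ht]; exact hlt
    have c2 : vt R (s / W R + 1) ≤ vt R (t / W R) := vt_le.2 c1
    have e := vt_of_isV hs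
    have := h _ s1
    rw [vt_of_isV ht] at c2
    have hW : W R = 2 * R.length + 2 := rfl
    unfold vt at e c2
    rw [add_mul] at this c2
    omega
  have h1 := key hs ht hs' h
  have h2 := key ht hs ht' fun u hu => (h u hu).symm
  omega

theorem upper (hL : LL R < G.card) : ∃ I : Finset ℕ, (∀ i ∈ I, i < R.length) ∧
    (∀ i ∈ I, ∀ j ∈ I, i < j → ¬ Adj R i j) ∧ G.card ≤ LL R + I.card := by
  classical
  refine ⟨(range R.length).filter fun k => ∃ g ∈ G, Has g (true, vt R k) (false, vt R k),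
    fun i hi => mem_range.1 (mem_filter.1 hi).1, fun i hi j hj hij hadj => ?_, ?_⟩
  · obtain ⟨-, g, hg, h⟩ := mem_filter.1 hi
    obtain ⟨hj', g', hg', h'⟩ := mem_filter.1 hj
    have hlt : vt R i < vt R j := vt_lt.2 hij
    have hne : g' ≠ g := by
      rintro rfl
      rcases h with h | h <;> rcases h' with h' | h' <;> rw [h] at h' <;>
        simp only [Prod.ext_iff] at h' <;> omega
    refine lt_asymm (hG.xl hg' hg hne h' h) (not_X_wire hlt (vt_lt.2 (mem_range.1 hj'))
      (isV_vt i) (isV_vt j) ?_)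
    rwa [vt_div, vt_div]
  have h1 : (G.filter fun g => isV R g.1.2 ∧ isV R g.2.2).card ≤ ((range R.length).filter
      fun k => ∃ g ∈ G, Has g (true, vt R k) (false, vt R k)).card := by
    refine card_le_of_end _ _ (fun a => a.2 / W R) (fun a _ => a.1 = true ∧ isV R a.2) ?_ ?_
    · intro g hg
      rw [mem_filter] at hg
      have hv := hG.valid g hg.1
      have h2 := has_anti (has_self g) hv.2.2 (hG.near_eq hL hg.2.1 hg.2.2 hv.1 hv.2.1
        (hG.near hL hg.1 (has_self g) hg.2.1).2)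
      refine ⟨_, _, h2, ⟨rfl, hg.2.1⟩, mem_filter.2 ⟨mem_range.2 (div_lt_of_isV hg.2.1 hv.1),
        g, hg.1, ?_⟩⟩
      rwa [vt_of_isV hg.2.1]
    · intro g1 hg1 g2 hg2 hne a b c d h1 h2 p1 p2 e
      refine hG.disj (mem_filter.1 hg1).1 (mem_filter.1 hg2).1 hne h1 h2
        (Prod.ext (p1.1.trans p2.1.symm) ?_)
      rw [← vt_of_isV p1.2, ← vt_of_isV p2.2]
      exact congrArg _ e
  have h2 : (G.filter fun g => ¬ (isV R g.1.2 ∧ isV R g.2.2)).card ≤ (Fr R).card := by
    refine card_le_of_end _ _ Prod.snd (fun a _ => ¬ isV R a.2) ?_ ?_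
    · intro g hg
      rw [mem_filter] at hg
      have hv := hG.valid g hg.1
      by_cases h : isV R g.1.2
      · have h' : ¬ isV R g.2.2 := by tauto
        exact ⟨_, _, (has_self g).symm, h', mem_Fr.2 ⟨hv.2.1, h'⟩⟩
      · exact ⟨_, _, has_self g, h, mem_Fr.2 ⟨hv.1, h⟩⟩
    · intro g hg g' hg' hne a b c d h h' pa pc e
      replace hg := (mem_filter.1 hg).1
      replace hg' := (mem_filter.1 hg').1
      obtain ⟨va, vb, nab⟩ := hG.val hg h
      obtain ⟨vc, vd, ncd⟩ := hG.val hg' h'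
      have nac := hG.disj hg hg' hne h h'
      have nbc := hG.disj hg hg' hne h.symm h'
      have nad := hG.disj hg hg' hne h h'.symm
      obtain ⟨ea, u⟩ := a
      obtain ⟨ec, u'⟩ := c
      obtain rfl : u = u' := e
      obtain ⟨eb, s⟩ := b
      obtain ⟨ed, t⟩ := d
      have hb : isV R s := by
        by_contra hb
        obtain rfl : u = s := hG.anti hL hg h pa hb
        cases ea <;> cases eb <;> cases ec <;> simp at nab nac nbc
      have hd : isV R t := by
        by_contra hd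
        obtain rfl : u = t := hG.anti hL hg' h' pc hd
        cases ea <;> cases ed <;> cases ec <;> simp at ncd nac nad
      obtain ⟨n1, n2⟩ := hG.near hL hg h.symm hb
      obtain ⟨n3, n4⟩ := hG.near hL hg' h'.symm hd
      obtain rfl : s = t := hG.near_eq hL hb hd vb vd fun w hw => (n2 w hw).trans (n4 w hw).symm
      have nsu : s ≠ u := fun e => pa (e ▸ hb)
      have hs : ori (pt R (true, u)) (pt R (false, u)) (pt R (true, s)) *
          ori (pt R (true, u)) (pt R (false, u)) (pt R (false, s)) < 0 := by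
        by_cases hlt : s < u
        · exact mul_neg_of_pos_of_neg (sep_pos va pa vb nsu (by simpa using hlt))
            (sep_neg va pa vb nsu (by simpa using hlt))
        · exact mul_neg_of_neg_of_pos (sep_neg va pa vb nsu (by simpa using hlt))
            (sep_pos va pa vb nsu (by simpa using hlt))
      refine four ?_ (hG.xl hg hg' hne h h') (hG.xl hg' hg hne.symm h' h)
      simp only at n1 n3
      cases ea <;> cases ec <;> cases eb <;> cases ed <;> simp at nac n1 n3
      · rwa [ori_swap, ori_swap (pt R (true, u)), neg_mul_neg]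
      · rwa [mul_comm]
  have h3 := card_filter_add_card_filter_not (s := G) fun g => isV R g.1.2 ∧ isV R g.2.2
  rw [card_Fr] at h2
  omega

end Fam

theorem geo (R : List Rec) (k : ℕ) : LL R + k ≤ cf (pts R) ↔ ∃ I : Finset ℕ,
    (∀ i ∈ I, i < R.length) ∧ (∀ i ∈ I, ∀ j ∈ I, i < j → ¬ Adj R i j) ∧ k ≤ I.card := by
  rw [le_cf_iff]
  constructor
  · rintro ⟨F, hF, hc⟩
    rcases Nat.eq_zero_or_pos k with rfl | hk
    · exact ⟨∅, by simp⟩
    rw [family_iff] at hF
    let Λ : Finset Lb := univ ×ˢ range (TT R)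
    let G := (Λ ×ˢ Λ).filter fun g => (pt R g.1, pt R g.2) ∈ F
    have hm : ∀ g, g ∈ G ↔ g.1.2 < TT R ∧ g.2.2 < TT R ∧ (pt R g.1, pt R g.2) ∈ F := by
      intro g; simp [G, Λ, and_assoc]
    have hG : Fam R G := by
      constructor
      · intro g hg
        rw [hm] at hg
        exact ⟨hg.1, hg.2.1, fun e => (hF.1 _ hg.2.2).2.2 (by simp only [e])⟩
      · intro g hg g' hg' hne
        rw [hm] at hg hg'
        refine hF.2 _ hg.2.2 _ hg'.2.2 fun e => hne ?_
        rw [Prod.mk.injEq] at e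
        exact Prod.ext (pt_inj hg.1 hg'.1 e.1) (pt_inj hg.2.1 hg'.2.1 e.2)
    have hle : F.card ≤ G.card := by
      refine (card_le_card fun s hs => ?_).trans
        (card_image_le (f := fun g : Lb × Lb => (pt R g.1, pt R g.2)))
      obtain ⟨a, ha, e1⟩ := mem_pts.1 (hF.1 s hs).1
      obtain ⟨b, hb, e2⟩ := mem_pts.1 (hF.1 s hs).2.1
      exact mem_image.2 ⟨(a, b), (hm _).2 ⟨ha, hb, by simpa [e1, e2] using hs⟩, by simp [e1, e2]⟩
    obtain ⟨I, h1, h2, h3⟩ := hG.upper (by omega)
    exact ⟨I, h1, h2, by omega⟩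
  · rintro ⟨I, h1, h2, h3⟩
    have hlt : ∀ t ∈ Fr R ∪ I.image (vt R), t < TT R := by
      intro t ht
      rcases mem_union.1 ht with h | h
      · exact (mem_Fr.1 h).1
      · obtain ⟨i, hi, rfl⟩ := mem_image.1 h
        exact vt_lt.2 (h1 i hi)
    have hI : ∀ t ∈ Fr R ∪ I.image (vt R), isV R t → t / W R ∈ I := by
      intro t ht hv
      rcases mem_union.1 ht with h | h
      · exact absurd hv (mem_Fr.1 h).2
      · obtain ⟨i, hi, rfl⟩ := mem_image.1 h
        rwa [vt_div]
    have hX : ∀ s ∈ Fr R ∪ I.image (vt R), ∀ t ∈ Fr R ∪ I.image (vt R), s < t →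
        X (wire R s) (wire R t) := by
      intro s hs t ht hst
      refine X_wire hst (hlt t ht) fun h => h2 _ (hI s hs h.1) _ (hI t ht h.2.1) ?_ h.2.2
      rw [← vt_lt (R := R), vt_of_isV h.1, vt_of_isV h.2.1]; exact hst
    refine ⟨(Fr R ∪ I.image (vt R)).image (wire R), family_iff.2 ⟨fun s hs => ?_, ?_⟩, ?_⟩
    · obtain ⟨t, ht, rfl⟩ := mem_image.1 hs
      refine ⟨mem_pts.2 ⟨_, hlt t ht, rfl⟩, mem_pts.2 ⟨_, hlt t ht, rfl⟩, fun e => ?_⟩
      simpa using pt_inj (a := (true, t)) (b := (false, t)) (hlt t ht) (hlt t ht) e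
    · intro s hs t ht hne
      obtain ⟨s, hs', rfl⟩ := mem_image.1 hs
      obtain ⟨t, ht', rfl⟩ := mem_image.1 ht
      rcases lt_trichotomy s t with h | h | h
      · exact hX s hs' t ht' h
      · exact absurd (by rw [h]) hne
      · exact (hX t ht' s hs' h).symm
    · rw [card_image_of_injOn, card_union_of_disjoint, card_Fr, card_image_of_injective _ vt_inj]
      · omega
      · rw [disjoint_right]
        intro t ht ht'
        obtain ⟨i, -, rfl⟩ := mem_image.1 ht
        exact (mem_Fr.1 ht').2 (isV_vt i)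
      · intro s hs t ht e
        exact congrArg Prod.snd (pt_inj (a := (true, s)) (b := (true, t)) (hlt s hs) (hlt t ht)
          (congrArg Prod.fst e))

end Pool.Agent.P.MP_0d06a5_lc
end
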