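import Pool.Agent.K.MP_0d06a5_lc.C1

/-! The cells of the gadget construction and their conflicts. -/

namespace Pool.Agent.P.MP_0d06a5_lc

/-- The isolated record. -/
def zz : Rec := (0, 0, 0, 0)

/-- The eight records of cell number `p`, at position `l` of sweep `s`. -/
def cell (L s l p : ℕ) (b : Bool) : List Rec :=
  if l = L then
    if s = 0 then [zz, zz, zz, zz, zz, zz, zz, zz]
    else if s % 2 = 1 then [zz, zz, zz, zz, zz, zz, (0, 0, 8 * p + 14, 0), zz]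
    else [(1, 8 * p - 2, 0, 0), zz, zz, zz, zz, zz, zz, zz]
  else if s = 0 then
    if l % 2 = 0 then [zz, (0, 0, 8 * (p + 2 * L - 2 * l) + 2, 8 * p + 3), (2, 8 * p, 8 * p + 9, 0),
      zz, zz, zz, zz, zz]
    else [(1, 8 * p - 6, 0, 8 * p + 2), (2, 8 * p, 8 * (p + 2 * L - 2 * l) + 2, 0),
      zz, zz, zz, zz, zz, zz]
  else if s % 2 = 1 then [(0, 0, 8 * p + 2, 8 * (p + 2 * L - 2 * l) + 3),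
      (1, 8 * (p - 2 * l - 2), 0, 0), zz, zz, zz, zz, zz, zz]
  else [(1, 8 * p - 2, 0, 8 * p + 7), (0, 0, 8 * (p + 2 * L - 2 * l) + 2, 8 * p + 3),
      (2, 8 * (p - 2 * l - 2), 0, 0), (0, 0, 8 * p + 6, 8 * p + 5), (2, 8 * p, 0, 0),
      (1, bif b then 8 * p + 1 else 8 * p - 2, 0, 8 * p + 7), (2, 8 * p, 8 * p + 14, 0), zz]

/-- Conflict between the record `x` at time `i` and the record `y` at time `j`. -/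
def adjR (x y : Rec) (i j : ℕ) : Prop :=
  (y.1 = 1 ∧ x.1 ≠ 1 ∧ y.2.1 ≤ i ∧ j < x.2.2.1) ∨ (y.1 = 2 ∧ x.1 ≠ 2 ∧ y.2.1 ≤ i ∧ j < x.2.2.2)

variable {L s l p a : ℕ} {b : Bool}

theorem readB (ha : a < 8) (h : ((cell L s l p b).getD a zz).1 = 1) :
    (s ≠ 0 ∧ s % 2 = 0 ∧ a = 0 ∧ ((cell L s l p b).getD a zz).2.1 = 8 * p - 2) ∨
    (s = 0 ∧ l ≠ L ∧ l % 2 = 1 ∧ a = 0 ∧ ((cell L s l p b).getD a zz).2.1 = 8 * p - 6) ∨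
    (s % 2 = 1 ∧ l ≠ L ∧ a = 1 ∧ ((cell L s l p b).getD a zz).2.1 = 8 * (p - 2 * l - 2)) ∨
    (s ≠ 0 ∧ s % 2 = 0 ∧ l ≠ L ∧ a = 5 ∧ ((cell L s l p b).getD a zz).2.1 = 8 * p + 1) ∨
    (s ≠ 0 ∧ s % 2 = 0 ∧ l ≠ L ∧ a = 5 ∧ b.toNat = 0 ∧
      ((cell L s l p b).getD a zz).2.1 = 8 * p - 2) := by
  unfold cell at h ⊢
  split_ifs at h ⊢ <;> interval_cases a <;> cases b <;> simp [zz] at h ⊢ <;> omega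

theorem readT (ha : a < 8) (h : ((cell L s l p b).getD a zz).1 = 2) : l ≠ L ∧
    ((s = 0 ∧ l % 2 = 0 ∧ a = 2 ∧ ((cell L s l p b).getD a zz).2.1 = 8 * p) ∨
    (s = 0 ∧ l % 2 = 1 ∧ a = 1 ∧ ((cell L s l p b).getD a zz).2.1 = 8 * p) ∨
    (s ≠ 0 ∧ s % 2 = 0 ∧ a = 2 ∧ ((cell L s l p b).getD a zz).2.1 = 8 * (p - 2 * l - 2)) ∨
    (s ≠ 0 ∧ s % 2 = 0 ∧ a = 4 ∧ ((cell L s l p b).getD a zz).2.1 = 8 * p) ∨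
    (s ≠ 0 ∧ s % 2 = 0 ∧ a = 6 ∧ ((cell L s l p b).getD a zz).2.1 = 8 * p)) := by
  unfold cell at h ⊢
  split_ifs at h ⊢ <;> interval_cases a <;> simp [zz] at h ⊢ <;> omega

theorem liveB (ha : a < 8) (h : 0 < ((cell L s l p b).getD a zz).2.2.1) :
    (l = L ∧ s % 2 = 1 ∧ a = 6 ∧ ((cell L s l p b).getD a zz).2.2.1 = 8 * p + 14) ∨
    (l ≠ L ∧ s % 2 = 0 ∧ a = 1 ∧
      ((cell L s l p b).getD a zz).2.2.1 = 8 * (p + 2 * L - 2 * l) + 2) ∨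
    (l ≠ L ∧ s = 0 ∧ l % 2 = 0 ∧ a = 2 ∧ ((cell L s l p b).getD a zz).2.2.1 = 8 * p + 9) ∨
    (l ≠ L ∧ s % 2 = 1 ∧ a = 0 ∧ ((cell L s l p b).getD a zz).2.2.1 = 8 * p + 2) ∨
    (l ≠ L ∧ s ≠ 0 ∧ s % 2 = 0 ∧ a = 3 ∧ ((cell L s l p b).getD a zz).2.2.1 = 8 * p + 6) ∨
    (l ≠ L ∧ s ≠ 0 ∧ s % 2 = 0 ∧ a = 6 ∧ ((cell L s l p b).getD a zz).2.2.1 = 8 * p + 14) := by
  unfold cell at h ⊢
  split_ifs at h ⊢ <;> interval_cases a <;> simp [zz] at h ⊢ <;> omega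

theorem liveT (ha : a < 8) (h : 0 < ((cell L s l p b).getD a zz).2.2.2) : l ≠ L ∧
    ((s % 2 = 0 ∧ a = 1 ∧ (s = 0 → l % 2 = 0) ∧ ((cell L s l p b).getD a zz).2.2.2 = 8 * p + 3) ∨
    (s = 0 ∧ l % 2 = 1 ∧ a = 0 ∧ ((cell L s l p b).getD a zz).2.2.2 = 8 * p + 2) ∨
    (s % 2 = 1 ∧ a = 0 ∧ ((cell L s l p b).getD a zz).2.2.2 = 8 * (p + 2 * L - 2 * l) + 3) ∨
    (s ≠ 0 ∧ s % 2 = 0 ∧ a = 0 ∧ ((cell L s l p b).getD a zz).2.2.2 = 8 * p + 7) ∨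
    (s ≠ 0 ∧ s % 2 = 0 ∧ a = 3 ∧ ((cell L s l p b).getD a zz).2.2.2 = 8 * p + 5) ∨
    (s ≠ 0 ∧ s % 2 = 0 ∧ a = 5 ∧ ((cell L s l p b).getD a zz).2.2.2 = 8 * p + 7)) := by
  unfold cell at h ⊢
  split_ifs at h ⊢ <;> interval_cases a <;> simp [zz] at h ⊢ <;> omega

/-- The list of all conflicts. -/
def Pat (L s l a s' l' a' : ℕ) (b' : Bool) : Prop :=
    (s' = s ∧ l' = l ∧ l < L ∧ ((s = 0 ∧ l % 2 = 0 ∧ a = 1 ∧ a' = 2) ∨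
      (s = 0 ∧ l % 2 = 1 ∧ a = 0 ∧ a' = 1) ∨ (s % 2 = 1 ∧ a = 0 ∧ a' = 1) ∨
      (s ≠ 0 ∧ s % 2 = 0 ∧ ((a = 0 ∧ (a' = 2 ∨ a' = 4 ∨ a' = 6)) ∨ (a = 1 ∧ (a' = 2 ∨ a' = 5)) ∨
        (a = 3 ∧ (a' = 4 ∨ a' = 5)) ∨ (a = 5 ∧ a' = 6))))) ∨
    (s = 0 ∧ s' = 0 ∧ l % 2 = 0 ∧ l' = l + 1 ∧ l' < L ∧ a = 2 ∧ a' = 0) ∨
    (s' = s + 1 ∧ l + l' + 1 = L ∧ ((s % 2 = 0 ∧ a = 1 ∧ a' = 1) ∨ (s % 2 = 1 ∧ a = 0 ∧ a' = 2))) ∨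
    (a = 6 ∧ s' ≠ 0 ∧ s' % 2 = 0 ∧ ((s' = s + 1 ∧ l = L ∧ l' = 0) ∨ (s' = s ∧ l' = l + 1)) ∧
      (a' = 0 ∨ (a' = 5 ∧ l' < L ∧ b'.toNat = 0)))

theorem edge_cases {s' l' p' a' : ℕ} {b' : Bool} (hl : l ≤ L) (hl' : l' ≤ L) (ha : a < 8)
    (ha' : a' < 8) (hlt : 8 * p + a < 8 * p' + a')
    (hrel : (s' = s ∧ p' + l = p + l') ∨ (s' = s + 1 ∧ p' + l = p + L + 1 + l') ∨
      (s + 2 ≤ s' ∧ p + 2 * (L + 1) + l' ≤ p' + l))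
    (h : adjR ((cell L s l p b).getD a zz) ((cell L s' l' p' b').getD a' zz) (8 * p + a)
      (8 * p' + a')) :
    Pat L s l a s' l' a' b' := by
  unfold Pat
  rcases h with ⟨h1, -, h2, h3⟩ | ⟨h1, -, h2, h3⟩
  · have r := readB ha' h1
    have v := liveB ha (Nat.zero_lt_of_lt h3)
    generalize ((cell L s' l' p' b').getD a' zz).2.1 = τ at *
    generalize ((cell L s l p b).getD a zz).2.2.1 = e at *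
    clear h1
    generalize b'.toNat = β at *
    rcases r with ⟨r, r1, rfl, r2⟩ | ⟨r, r1, r3, rfl, r2⟩ | ⟨r, r1, rfl, r2⟩ |
      ⟨r, r1, r3, rfl, r2⟩ | ⟨r, r1, r3, rfl, r2⟩ <;>
    rcases v with ⟨v, v1, rfl, v2⟩ | ⟨v, v1, rfl, v2⟩ | ⟨v, v1, v3, rfl, v2⟩ | ⟨v, v1, rfl, v2⟩ |
      ⟨v, v1, v3, rfl, v2⟩ | ⟨v, v1, v3, rfl, v2⟩ <;>
      rcases hrel with w | w | w <;> first | (exfalso; omega) | (simp; omega)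
  · have r := readT ha' h1
    have v := liveT ha (Nat.zero_lt_of_lt h3)
    generalize ((cell L s' l' p' b').getD a' zz).2.1 = τ at *
    generalize ((cell L s l p b).getD a zz).2.2.2 = e at *
    clear h1
    obtain ⟨r0, r⟩ := r
    obtain ⟨v0, v⟩ := v
    rcases r with ⟨r, r1, rfl, r2⟩ | ⟨r, r1, rfl, r2⟩ | ⟨r, r1, rfl, r2⟩ |
      ⟨r, r1, rfl, r2⟩ | ⟨r, r1, rfl, r2⟩ <;>
    rcases v with ⟨v, rfl, v2⟩ | ⟨v, v1, rfl, v2⟩ | ⟨v, rfl, v2⟩ | ⟨v, v1, rfl, v2⟩ |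
      ⟨v, v1, rfl, v2⟩ | ⟨v, v1, rfl, v2⟩ <;>
      rcases hrel with w | w | w <;> first | (exfalso; omega) | (simp; omega)

theorem edge_of {s' l' p' a' : ℕ} {b' : Bool} (hl : l ≤ L) (hl' : l' ≤ L)
    (hrel : (s' = s ∧ p' + l = p + l') ∨ (s' = s + 1 ∧ p' + l = p + L + 1 + l') ∨
      (s' ≠ s ∧ s' ≠ s + 1)) (h : Pat L s l a s' l' a' b') :
    8 * p + a < 8 * p' + a' ∧
      adjR ((cell L s l p b).getD a zz) ((cell L s' l' p' b').getD a' zz) (8 * p + a)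
        (8 * p' + a') := by
  unfold cell adjR
  rcases h with ⟨rfl, rfl, h1, ⟨h2, h3, rfl, rfl⟩ | ⟨h2, h3, rfl, rfl⟩ | ⟨h2, rfl, rfl⟩ |
      ⟨h2, h3, ⟨rfl, rfl | rfl | rfl⟩ | ⟨rfl, rfl | rfl⟩ | ⟨rfl, rfl | rfl⟩ | ⟨rfl, rfl⟩⟩⟩ |
      ⟨h1, h2, h3, h4, h5, rfl, rfl⟩ | ⟨h1, h2, ⟨h3, rfl, rfl⟩ | ⟨h3, rfl, rfl⟩⟩ |
      ⟨rfl, h1, h2, h3, rfl | ⟨rfl, h4, h5⟩⟩ <;>
    split_ifs <;> first | omega | (cases b' <;> simp [zz] at * <;> omega)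

end Pool.Agent.P.MP_0d06a5_lc
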