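import Pool.Agent.K.MP_0d06a5_lc.C2

/-! Satisfiability versus independent sets of records. -/

namespace Pool.Agent.P.MP_0d06a5_lc

open Finset

/-- Largest independent subset of one cell. -/
def bd (L s l : ℕ) : ℕ := if l = L then 8 else if s ≠ 0 ∧ s % 2 = 0 then 4 else 7

/-- All records, for `L` literals and `m` clauses with incidence `inC`. -/
def recs (L m : ℕ) (inC : ℕ → ℕ → Bool) : List Rec :=
  (List.range (8 * ((L + 1) * (2 * m + 1)))).map fun t =>
    (cell L (t / 8 / (L + 1)) (t / 8 % (L + 1)) (t / 8)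
      (inC (t / 8 / (L + 1) / 2 - 1) (t / 8 % (L + 1)))).getD (t % 8) zz

/-- Target size. -/
def KK (L m : ℕ) : ℕ :=
  ((List.range ((L + 1) * (2 * m + 1))).map fun p => bd L (p / (L + 1)) (p % (L + 1))).sum

variable {L m : ℕ} {inC : ℕ → ℕ → Bool}

theorem length_recs : (recs L m inC).length = 8 * ((L + 1) * (2 * m + 1)) := by simp [recs]

theorem rc_recs {p a : ℕ} (hp : p < (L + 1) * (2 * m + 1)) (ha : a < 8) :
    rc (recs L m inC) (8 * p + a) = (cell L (p / (L + 1)) (p % (L + 1)) p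
      (inC (p / (L + 1) / 2 - 1) (p % (L + 1)))).getD a zz := by
  have h1 : (8 * p + a) / 8 = p := by omega
  have h2 : (8 * p + a) % 8 = a := by omega
  have h3 : 8 * p + a < 8 * ((L + 1) * (2 * m + 1)) := by omega
  rw [rc, List.getD_eq_getElem _ _ (by rwa [length_recs])]
  simp only [recs, List.getElem_map, List.getElem_range, h1, h2]

theorem KK_eq : KK L m = ∑ p ∈ range ((L + 1) * (2 * m + 1)), bd L (p / (L + 1)) (p % (L + 1)) := by
  rw [KK, ← List.sum_toFinset _ List.nodup_range, List.toFinset_range]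

theorem sum_eight (f : ℕ → ℕ) (P : ℕ) : ∑ t ∈ range (8 * P), f t = ∑ p ∈ range P,
    (f (8 * p) + f (8 * p + 1) + f (8 * p + 2) + f (8 * p + 3) + f (8 * p + 4) + f (8 * p + 5) +
      f (8 * p + 6) + f (8 * p + 7)) := by
  induction P with
  | zero => simp
  | succ P ih =>
    rw [mul_add_one, sum_range_succ _ P, ← ih]
    simp only [sum_range_succ]
    ring

theorem card_eq_sum {I : Finset ℕ} {N : ℕ} (h : ∀ i ∈ I, i < N) :
    I.card = ∑ t ∈ range N, if t ∈ I then 1 else 0 := by
  rw [sum_ite_mem, inter_eq_right.2 fun i hi => mem_range.2 (h i hi)]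
  simp

theorem pos_lt {s l : ℕ} (hs : s < 2 * m + 1) (hl : l ≤ L) :
    s * (L + 1) + l < (L + 1) * (2 * m + 1) := by
  have : (s + 1) * (L + 1) ≤ (2 * m + 1) * (L + 1) := Nat.mul_le_mul_right _ hs
  nlinarith

theorem pos_div {s l : ℕ} (hl : l ≤ L) : (s * (L + 1) + l) / (L + 1) = s := by
  rw [mul_comm, Nat.mul_add_div (by omega), Nat.div_eq_of_lt (by omega)]; rfl

theorem pos_mod {s l : ℕ} (hl : l ≤ L) : (s * (L + 1) + l) % (L + 1) = l := by
  rw [mul_comm, Nat.mul_add_mod, Nat.mod_eq_of_lt (by omega)]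

theorem sound {n : ℕ} (hL : L = 2 * n) {I : Finset ℕ} (h1 : ∀ i ∈ I, i < (recs L m inC).length)
    (h2 : ∀ i ∈ I, ∀ j ∈ I, i < j → ¬ Adj (recs L m inC) i j) (h3 : KK L m ≤ I.card) :
    ∃ val : ℕ → Bool, ∀ c < m, ∃ l < L, inC c l = true ∧ val (l / 2) = decide (l % 2 = 1) := by
  obtain ⟨u, hu⟩ : ∃ u : ℕ → ℕ → ℕ → ℕ,
      ∀ s l a, u s l a = if 8 * (s * (L + 1) + l) + a ∈ I then 1 else 0 := ⟨_, fun _ _ _ => rfl⟩
  have u1 : ∀ s l a, u s l a ≤ 1 := fun s l a => by rw [hu]; split_ifs <;> omega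
  have u8 : ∀ s l, u s l 0 ≤ 1 ∧ u s l 1 ≤ 1 ∧ u s l 2 ≤ 1 ∧ u s l 3 ≤ 1 ∧ u s l 4 ≤ 1 ∧
      u s l 5 ≤ 1 ∧ u s l 6 ≤ 1 ∧ u s l 7 ≤ 1 := fun s l => by simp only [u1, and_self]
  have hE : ∀ s l a s' l' a', s < 2 * m + 1 → s' < 2 * m + 1 → l ≤ L → l' ≤ L → a < 8 → a' < 8 →
      Pat L s l a s' l' a' (inC (s' / 2 - 1) l') → u s l a + u s' l' a' ≤ 1 := by
    intro s l a s' l' a' hs hs' hl hl' ha ha' h
    obtain ⟨e1, e2⟩ := edge_of (p := s * (L + 1) + l) (p' := s' * (L + 1) + l')
      (b := inC (s / 2 - 1) l) hl hl' (by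
        by_cases q1 : s' = s
        · left; subst q1; omega
        · by_cases q2 : s' = s + 1
          · right; left; subst q2; rw [add_mul]; omega
          · omega) h
    rw [hu, hu]
    split_ifs with i1 i2
    · refine absurd ?_ (h2 _ i1 _ i2 e1)
      change adjR _ _ _ _
      rwa [rc_recs (pos_lt hs hl) ha, rc_recs (pos_lt hs' hl') ha', pos_div hl, pos_div hl',
        pos_mod hl, pos_mod hl']
    all_goals omega
  have fw : ∀ s l, s < 2 * m + 1 → l < L → s ≠ 0 → s % 2 = 0 → u s l 0 + u s l 2 ≤ 1 ∧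
      u s l 0 + u s l 4 ≤ 1 ∧ u s l 0 + u s l 6 ≤ 1 ∧ u s l 1 + u s l 2 ≤ 1 ∧
      u s l 1 + u s l 5 ≤ 1 ∧ u s l 3 + u s l 4 ≤ 1 ∧ u s l 3 + u s l 5 ≤ 1 ∧
      u s l 5 + u s l 6 ≤ 1 := by
    intro s l hs hl s1 s2
    refine ⟨?_, ?_, ?_, ?_, ?_, ?_, ?_, ?_⟩ <;>
      exact hE _ _ _ _ _ _ hs hs hl.le hl.le (by omega) (by omega) (by simp [Pat, hl, s1, s2])
  have i0 : ∀ l < L, l % 2 = 0 → u 0 l 1 + u 0 l 2 ≤ 1 := fun l hl h =>
    hE _ _ _ _ _ _ (by omega) (by omega) hl.le hl.le (by omega) (by omega) (by simp [Pat, hl, h])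
  have i1 : ∀ l < L, l % 2 = 1 → u 0 l 0 + u 0 l 1 ≤ 1 := fun l hl h =>
    hE _ _ _ _ _ _ (by omega) (by omega) hl.le hl.le (by omega) (by omega) (by simp [Pat, hl, h])
  have rt : ∀ s l, s < 2 * m + 1 → l < L → s % 2 = 1 → u s l 0 + u s l 1 ≤ 1 := fun s l hs hl h =>
    hE _ _ _ _ _ _ hs hs hl.le hl.le (by omega) (by omega) (by simp [Pat, hl, h])
  have hle : ∀ s l, s < 2 * m + 1 → l ≤ L → u s l 0 + u s l 1 + u s l 2 + u s l 3 + u s l 4 +
      u s l 5 + u s l 6 + u s l 7 ≤ bd L s l := by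
    intro s l hs hl
    have := u8 s l
    unfold bd
    split_ifs with c1 c2
    · omega
    · have := fw s l hs (by omega) c2.1 c2.2
      omega
    · by_cases s0 : s = 0
      · subst s0
        have := i0 l (by omega)
        have := i1 l (by omega)
        omega
      · have := rt s l hs (by omega) (by omega)
        omega
  have tight : ∀ s l, s < 2 * m + 1 → l ≤ L → u s l 0 + u s l 1 + u s l 2 + u s l 3 + u s l 4 +
      u s l 5 + u s l 6 + u s l 7 = bd L s l := by
    rw [length_recs] at h1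
    rw [card_eq_sum h1, sum_eight, KK_eq] at h3
    have hle' : ∀ p ∈ range ((L + 1) * (2 * m + 1)), _ := fun p hp =>
      hle (p / (L + 1)) (p % (L + 1)) (Nat.div_lt_of_lt_mul (mem_range.1 hp))
        (Nat.lt_succ_iff.1 (Nat.mod_lt _ (by omega)))
    have key := (sum_eq_sum_iff_of_le hle').1 (le_antisymm (sum_le_sum hle') (h3.trans_eq (by
      refine sum_congr rfl fun p _ => ?_
      simp only [hu, Nat.div_add_mod', add_zero])))
    intro s l hs hl
    have := key _ (mem_range.2 (pos_lt hs hl))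
    rwa [pos_div hl, pos_mod hl] at this
  have g1 : ∀ s l, s + 1 < 2 * m + 1 → l < L → s % 2 = 0 → u s l 1 = 1 →
      u (s + 1) (L - 1 - l) 0 = 1 := by
    intro s l hs hl s2 h
    have e1 := hE s l 1 (s + 1) (L - 1 - l) 1 (by omega) hs hl.le (by omega) (by omega) (by omega)
      (by simp [Pat, s2]; omega)
    have e2 := tight (s + 1) (L - 1 - l) hs (by omega)
    have := u8 (s + 1) (L - 1 - l)
    rw [bd, if_neg (by omega), if_neg (by omega)] at e2
    omega
  have g2 : ∀ s l, s + 1 < 2 * m + 1 → l < L → s % 2 = 1 → u s l 0 = 1 →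
      u (s + 1) (L - 1 - l) 1 = 1 := by
    intro s l hs hl s2 h
    have e1 := hE s l 0 (s + 1) (L - 1 - l) 2 (by omega) hs hl.le (by omega) (by omega) (by omega)
      (by simp [Pat, s2]; omega)
    have e2 := tight (s + 1) (L - 1 - l) hs (by omega)
    have e3 := fw (s + 1) (L - 1 - l) hs (by omega) (by omega) (by omega)
    have := u8 (s + 1) (L - 1 - l)
    rw [bd, if_neg (by omega), if_pos (by omega)] at e2
    omega
  have g3 : ∀ l < L, u 0 l 1 = 1 → ∀ c ≤ m, u (2 * c) l 1 = 1 := by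
    intro l hl h c hc
    induction c with
    | zero => exact h
    | succ c ih =>
      have e1 := g1 (2 * c) l (by omega) hl (by omega) (ih (by omega))
      have e2 := g2 (2 * c + 1) (L - 1 - l) (by omega) (by omega) (by omega) e1
      rwa [show L - 1 - (L - 1 - l) = l by omega] at e2
  have g4 : ∀ l, l + 1 < L → l % 2 = 0 → u 0 l 1 = 1 ∨ u 0 (l + 1) 1 = 1 := by
    intro l hl h
    have e1 := hE 0 l 2 0 (l + 1) 0 (by omega) (by omega) (by omega) (by omega) (by omega)
      (by omega) (by simp [Pat, h, hl])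
    have e2 := tight 0 l (by omega) (by omega)
    have e3 := tight 0 (l + 1) (by omega) (by omega)
    have := u8 0 l
    have := u8 0 (l + 1)
    rw [bd, if_neg (by omega), if_neg (by omega)] at e2 e3
    omega
  have ex : ∀ s < 2 * m + 1, u s L 0 = 1 ∧ u s L 6 = 1 := by
    intro s hs
    have e2 := tight s L hs le_rfl
    have := u8 s L
    rw [bd, if_pos rfl] at e2
    omega
  refine ⟨fun v => decide (u 0 (2 * v) 1 = 1), fun c hc => ?_⟩
  by_contra hn
  push Not at hn
  have hg : ∀ l < L, inC c l = true → u (2 * (c + 1)) l 1 = 1 := by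
    intro l hl h
    refine g3 l hl ?_ (c + 1) hc
    have := hn l hl h
    simp only [ne_eq, decide_eq_decide] at this
    by_cases q : l % 2 = 1
    · have e := g4 (2 * (l / 2)) (by omega) (by omega)
      rw [show 2 * (l / 2) + 1 = l by omega] at e
      tauto
    · rw [show 2 * (l / 2) = l by omega] at this
      tauto
  have carry : ∀ l ≤ L, ∃ s₀ l₀, s₀ < 2 * m + 1 ∧ l₀ ≤ L ∧ u s₀ l₀ 6 = 1 ∧
      ((2 * (c + 1) = s₀ + 1 ∧ l₀ = L ∧ l = 0) ∨ (2 * (c + 1) = s₀ ∧ l = l₀ + 1)) := by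
    intro l hl
    induction l with
    | zero => exact ⟨2 * c + 1, L, by omega, le_rfl, (ex _ (by omega)).2, by omega⟩
    | succ l ih =>
      obtain ⟨s₀, l₀, q1, q2, q3, q4⟩ := ih (by omega)
      refine ⟨2 * (c + 1), l, by omega, by omega, ?_, by omega⟩
      have e1 := hE s₀ l₀ 6 (2 * (c + 1)) l 0 q1 (by omega) q2 (by omega) (by omega) (by omega)
        (by simp [Pat]; omega)
      have e2 := tight (2 * (c + 1)) l (by omega) (by omega)
      have e3 := fw (2 * (c + 1)) l (by omega) (by omega) (by omega) (by omega)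
      have := u8 (2 * (c + 1)) l
      rw [bd, if_neg (by omega), if_pos (by omega)] at e2
      cases hin : inC c l
      · have e4 := hE s₀ l₀ 6 (2 * (c + 1)) l 5 q1 (by omega) q2 (by omega) (by omega) (by omega)
          (by simp [Pat, hin]; omega)
        omega
      · have := hg l (by omega) hin
        omega
  obtain ⟨s₀, l₀, q1, q2, q3, q4⟩ := carry L le_rfl
  have e1 := hE s₀ l₀ 6 (2 * (c + 1)) L 0 q1 (by omega) q2 le_rfl (by omega) (by omega)
    (by simp [Pat]; omega)
  have := (ex (2 * (c + 1)) (by omega)).1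
  omega

/-- The selected records of a cell. -/
def scell (L s l : ℕ) (t t' c : Bool) : List Bool :=
  if l = L then [true, true, true, true, true, true, true, true]
  else if s = 0 then
    if l % 2 = 0 then [true, !t, t, true, true, true, true, true]
    else [t, !t, true, true, true, true, true, true]
  else if s % 2 = 1 then [!t', t', true, true, true, true, true, true]
  else [!c && !t, !t, t, !c && !t, c || t, !c && t, c, true]

theorem complete (val : ℕ → Bool)
    (hv : ∀ c < m, ∃ l < L, inC c l = true ∧ val (l / 2) = decide (l % 2 = 1)) :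
    ∃ I : Finset ℕ, (∀ i ∈ I, i < (recs L m inC).length) ∧
      (∀ i ∈ I, ∀ j ∈ I, i < j → ¬ Adj (recs L m inC) i j) ∧ KK L m ≤ I.card := by
  obtain ⟨tv, htv⟩ : ∃ tv : ℕ → Bool, ∀ l, tv l = true ↔ val (l / 2) = decide (l % 2 = 1) :=
    ⟨fun l => decide _, fun l => decide_eq_true_iff⟩
  obtain ⟨cy, hcy⟩ : ∃ cy : ℕ → ℕ → Bool, ∀ s l, cy s l = true ↔
      ∀ l' < l, ¬ (inC (s / 2 - 1) l' = true ∧ tv l' = true) :=
    ⟨fun s l => decide _, fun s l => decide_eq_true_iff⟩
  have cy1 : ∀ s l, cy s l = true → (inC (s / 2 - 1) l = false ∨ tv l = false) →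
      cy s (l + 1) = true := by
    intro s l h h'
    rw [hcy] at h ⊢
    intro l' hl'
    rcases Nat.lt_succ_iff_lt_or_eq.1 hl' with q | rfl
    · exact h l' q
    · rcases h' with h' | h' <;> simp [h']
  have cy2 : ∀ s < 2 * m + 1, s ≠ 0 → s % 2 = 0 → cy s L ≠ true := by
    intro s hs s0 s1 h
    obtain ⟨l, hl, q1, q2⟩ := hv (s / 2 - 1) (by omega)
    exact (hcy s L).1 h l hl ⟨q1, (htv l).2 q2⟩
  obtain ⟨sl, hsl⟩ : ∃ sl : ℕ → ℕ → ℕ → Bool, ∀ s l a,
      sl s l a = (scell L s l (tv l) (tv (L - 1 - l)) (cy s (l + 1))).getD a false :=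
    ⟨_, fun _ _ _ => rfl⟩
  have hP : ∀ s l a s' l' a', s' < 2 * m + 1 → l' ≤ L →
      Pat L s l a s' l' a' (inC (s' / 2 - 1) l') →
      sl s l a = true → sl s' l' a' = true → False := by
    intro s l a s' l' a' hs' hl' h
    rw [hsl, hsl]
    rcases h with ⟨rfl, rfl, h1, h⟩ | ⟨rfl, rfl, h3, rfl, h5, rfl, rfl⟩ | ⟨rfl, h2, h⟩ |
      ⟨rfl, h1, h2, h3, h⟩
    · generalize tv l' = t
      generalize tv (L - 1 - l') = t'
      generalize cy s' (l' + 1) = c
      rcases h with ⟨h2, h3, rfl, rfl⟩ | ⟨h2, h3, rfl, rfl⟩ | ⟨h2, rfl, rfl⟩ |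
        ⟨h2, h3, ⟨rfl, rfl | rfl | rfl⟩ | ⟨rfl, rfl | rfl⟩ | ⟨rfl, rfl | rfl⟩ | ⟨rfl, rfl⟩⟩ <;>
        unfold scell <;> split_ifs <;> first | omega | (cases t <;> cases t' <;> cases c <;> simp)
    · unfold scell
      split_ifs <;> try omega
      simp only [List.getD_cons_succ, List.getD_cons_zero, htv]
      rw [show (l + 1) / 2 = l / 2 by omega]
      intro q1 q2
      rw [q1, decide_eq_decide] at q2
      omega
    · rw [show L - 1 - l = l' by omega, show L - 1 - l' = l by omega]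
      generalize tv l' = t
      generalize tv l = t'
      rcases h with ⟨h3, rfl, rfl⟩ | ⟨h3, rfl, rfl⟩ <;> unfold scell <;> split_ifs <;>
        first | omega | contradiction | (cases t <;> cases t' <;> simp)
    · intro q1
      have hc : cy s' l' = true := by
        rcases h3 with ⟨-, -, rfl⟩ | ⟨rfl, rfl⟩
        · simp [hcy]
        · unfold scell at q1
          split_ifs at q1 <;> first | omega | simpa using q1
      have h4 := cy1 s' l' hc
      have h5 := cy2 s' hs' h1 h2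
      unfold scell
      rcases h with rfl | ⟨rfl, h6, h7⟩ <;> split_ifs <;> try omega
      · exact fun _ => h5 (by simp_all)
      · cases ht : tv l' <;> simp_all
      · cases hi : inC (s' / 2 - 1) l' <;> simp_all
  refine ⟨(range (8 * ((L + 1) * (2 * m + 1)))).filter fun t =>
    sl (t / 8 / (L + 1)) (t / 8 % (L + 1)) (t % 8) = true, fun i hi => ?_, fun i hi j hj hij h => ?_, ?_⟩
  · rw [length_recs]; exact mem_range.1 (mem_filter.1 hi).1
  · rw [mem_filter, mem_range] at hi hj
    have e := Nat.div_add_mod i 8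
    have e' := Nat.div_add_mod j 8
    have ha : i % 8 < 8 := by omega
    have ha' : j % 8 < 8 := by omega
    have hp : i / 8 < (L + 1) * (2 * m + 1) := by omega
    have hp' : j / 8 < (L + 1) * (2 * m + 1) := by omega
    generalize i / 8 = p at *
    generalize j / 8 = p' at *
    generalize i % 8 = a at *
    generalize j % 8 = a' at *
    subst e e'
    change adjR _ _ _ _ at h
    rw [rc_recs hp ha, rc_recs hp' ha'] at h
    have hl : p % (L + 1) ≤ L := Nat.lt_succ_iff.1 (Nat.mod_lt _ (by omega))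
    have hl' : p' % (L + 1) ≤ L := Nat.lt_succ_iff.1 (Nat.mod_lt _ (by omega))
    refine hP _ _ _ _ _ _ (Nat.div_lt_of_lt_mul hp') hl'
      (edge_cases hl hl' ha ha' hij ?_ h) hi.2 hj.2
    have hs : p / (L + 1) ≤ p' / (L + 1) := Nat.div_le_div_right (by omega)
    have e := Nat.div_add_mod' p (L + 1)
    have e' := Nat.div_add_mod' p' (L + 1)
    generalize p / (L + 1) = s at *
    generalize p' / (L + 1) = s' at *
    by_cases q1 : s' = s
    · left; subst q1; omega
    · by_cases q2 : s' = s + 1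
      · right; left; subst q2; rw [add_mul] at e'; omega
      · have : (s + 2) * (L + 1) ≤ s' * (L + 1) := Nat.mul_le_mul_right _ (by omega)
        rw [add_mul] at this
        omega
  · rw [card_filter, sum_eight, KK_eq]
    refine sum_le_sum fun p _ => ?_
    have e : ∀ a < 8, (8 * p + a) / 8 = p ∧ (8 * p + a) % 8 = a := fun a ha => by omega
    have e0 : 8 * p / 8 = p ∧ 8 * p % 8 = 0 := by omega
    simp only [e0, e 1 (by omega), e 2 (by omega), e 3 (by omega), e 4 (by omega), e 5 (by omega),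
      e 6 (by omega), e 7 (by omega), hsl]
    generalize p / (L + 1) = s
    generalize p % (L + 1) = l
    generalize tv l = t
    generalize tv (L - 1 - l) = t'
    generalize cy s (l + 1) = c
    unfold bd scell
    by_cases c1 : l = L
    · simp [c1]
    · by_cases c2 : s = 0
      · by_cases c3 : l % 2 = 0 <;> cases t <;> simp [c1, c2, c3]
      · by_cases c3 : s % 2 = 1
        · cases t' <;> simp [c1, c2, c3]
        · have c4 : s % 2 = 0 := by omega
          cases t <;> cases c <;> simp [c1, c2, c4]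

end Pool.Agent.P.MP_0d06a5_lc
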