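import Pool.Agent.K.MP_0d06a5_lc.C1
import Pool.Agent.K.MP_0d06a5_lc.C3
import Pool.Agent.Lib.PolyTime.Cook

/-! The polynomial-time reduction from satisfiability. -/

namespace Pool.Agent.P.MP_0d06a5_lc

open Pool.Agent.Lib.PolyTime N68a2faeb

section PTpart

attribute [local irreducible] rc W vt TT pw isV UU YY cm hm cc hh base pt pts LL NN mm idx cell zz

variable {α : Type} [N487b59b3 α] {R : α → List Rec} {t k e o : α → ℕ} {x : α → Bool × ℕ}

@[fun_prop] theorem pt_rc (hR : PT R) (hk : PT k) : PT fun a => rc (R a) (k a) := by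
  unfold rc; fun_prop
@[fun_prop] theorem pt_W (hR : PT R) : PT fun a => W (R a) := by unfold W; fun_prop
@[fun_prop] theorem pt_vt (hR : PT R) (hk : PT k) : PT fun a => vt (R a) (k a) := by
  unfold vt; fun_prop
@[fun_prop] theorem pt_TT (hR : PT R) : PT fun a => TT (R a) := by unfold TT; fun_prop
@[fun_prop] theorem small_TT (hR : PT R) : Small fun a => TT (R a) := by
  unfold TT vt W; fun_prop
@[fun_prop] theorem pt_pw (hR : PT R) (ht : PT t) : PT fun a => pw (R a) (t a) := by
  unfold pw; fun_prop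
@[fun_prop] theorem ptp_isV (hR : PT R) (ht : PT t) : PTP fun a => isV (R a) (t a) := by
  unfold isV; fun_prop
@[fun_prop] theorem pt_UU (hR : PT R) : PT fun a => UU (R a) := by unfold UU; fun_prop
@[fun_prop] theorem pt_YY (hR : PT R) : PT fun a => YY (R a) := by unfold YY; fun_prop
@[fun_prop] theorem pt_cm (hR : PT R) (ho : PT o) (ht : PT t) :
    PT fun a => cm (R a) (o a) (t a) := by unfold cm; fun_prop
@[fun_prop] theorem pt_hm (hR : PT R) (ho : PT o) (he : PT e) (ht : PT t) :
    PT fun a => hm (R a) (o a) (e a) (t a) := by unfold hm; fun_prop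
@[fun_prop] theorem pt_cc (hR : PT R) (ht : PT t) : PT fun a => cc (R a) (t a) := by
  unfold cc; fun_prop
@[fun_prop] theorem pt_hh (hR : PT R) (hx : PT x) : PT fun a => hh (R a) (x a) := by
  unfold hh; fun_prop
@[fun_prop] theorem pt_base (hR : PT R) (hx : PT x) : PT fun a => base (R a) (x a) := by
  unfold base; fun_prop
@[fun_prop] theorem pt_pt (hR : PT R) (hx : PT x) : PT fun a => pt (R a) (x a) := by
  have h1 : PT fun a => mm (R a) := by unfold mm; fun_prop
  have h2 : PT fun a => NN (R a) := by unfold NN; fun_prop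
  have h3 : PT fun a => idx (x a) := by unfold idx; fun_prop
  unfold pt pert; fun_prop
@[fun_prop] theorem pt_pts (hR : PT R) : PT fun a => pts (R a) := by unfold pts; fun_prop
@[fun_prop] theorem pt_LL (hR : PT R) : PT fun a => LL (R a) := by unfold LL; fun_prop
@[fun_prop] theorem pt_cell {L s l p : α → ℕ} {b : α → Bool} (hL : PT L) (hs : PT s) (hl : PT l)
    (hp : PT p) (hb : PT b) : PT fun a => cell (L a) (s a) (l a) (p a) (b a) := by
  unfold cell; fun_prop

end PTpart

/-- The variable occurrences of a formula. -/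
def vars (φ : CNF) : List ℕ := φ.flatten.map Prod.fst

/-- Incidence between clause number `c` and literal number `l`. -/
def inc (φ : CNF) (c l : ℕ) : Bool :=
  decide (((vars φ).getD (l / 2) 0, decide (l % 2 = 1)) ∈ φ.getD c [] ∧
    ¬ (vars φ).getD (l / 2) 0 ∈ (vars φ).take (l / 2))

/-- The records of a formula. -/
def recsOf (φ : CNF) : List Rec := recs (2 * (vars φ).length) φ.length (inc φ)

/-- The reduction. -/
def red (φ : CNF) : List Pt × ℕ :=
  (pts (recsOf φ), LL (recsOf φ) + KK (2 * (vars φ).length) φ.length)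

attribute [local irreducible] pts LL cell zz vars recsOf in
theorem pt_red : PT red := by
  have h0 : PT vars := by unfold vars; fun_prop
  have h1 : PT recsOf := by unfold recsOf recs inc; fun_prop
  unfold red KK bd
  fun_prop

theorem idxOf_getD {V : List ℕ} {i : ℕ} (hi : i < V.length) (h : ¬ V.getD i 0 ∈ V.take i) :
    V.idxOf (V.getD i 0) = i := by
  induction V generalizing i with
  | nil => simp at hi
  | cons y V ih =>
    cases i with
    | zero => simp
    | succ i =>
      simp only [List.getD_cons_succ, List.take_succ_cons, List.mem_cons, not_or] at h ⊢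
      rw [List.idxOf_cons_ne _ (Ne.symm h.1), ih (by simpa using hi) h.2]

theorem not_mem_take_idxOf (V : List ℕ) (x : ℕ) : ¬ x ∈ V.take (V.idxOf x) := by
  induction V with
  | nil => simp
  | cons y V ih =>
    by_cases h : y = x
    · simp [h]
    · rw [List.idxOf_cons_ne _ h]
      simp [ih, Ne.symm h]

theorem sat_iff (φ : CNF) : φ.Sat ↔ ∃ val : ℕ → Bool, ∀ c < φ.length, ∃ l < 2 * (vars φ).length,
    inc φ c l = true ∧ val (l / 2) = decide (l % 2 = 1) := by
  constructor
  · rintro ⟨v, hv⟩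
    refine ⟨fun i => v ((vars φ).getD i 0), fun c hc => ?_⟩
    obtain ⟨⟨x, b⟩, h1, h2⟩ := hv φ[c] (List.getElem_mem hc)
    have hx : x ∈ vars φ :=
      List.mem_map.2 ⟨(x, b), List.mem_flatten.2 ⟨_, List.getElem_mem hc, h1⟩, rfl⟩
    have h3 := List.idxOf_lt_length_iff.2 hx
    have h4 := Bool.toNat_le b
    have e1 : (2 * (vars φ).idxOf x + b.toNat) / 2 = (vars φ).idxOf x := by omega
    have e2 : decide ((2 * (vars φ).idxOf x + b.toNat) % 2 = 1) = b := by cases b <;> simp
    have e3 : (vars φ).getD ((vars φ).idxOf x) 0 = x := by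
      rw [List.getD_eq_getElem _ _ h3, List.getElem_idxOf]
    refine ⟨2 * (vars φ).idxOf x + b.toNat, by omega, ?_, ?_⟩
    · rw [inc, e1, e2, e3, decide_eq_true_iff, List.getD_eq_getElem _ _ hc]
      exact ⟨h1, not_mem_take_idxOf _ _⟩
    · simp only [e1, e2, e3]; exact h2
  · rintro ⟨val, hv⟩
    refine ⟨fun x => val ((vars φ).idxOf x), fun cl hcl => ?_⟩
    obtain ⟨c, hc, rfl⟩ := List.getElem_of_mem hcl
    obtain ⟨l, hl, h1, h2⟩ := hv c hc
    rw [inc, decide_eq_true_iff, List.getD_eq_getElem _ _ hc] at h1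
    refine ⟨_, h1.1, ?_⟩
    simp only
    rw [idxOf_getD (by omega) h1.2, h2]

theorem red_spec (φ : CNF) : φ.Sat ↔ (red φ).2 ≤ cf (red φ).1 := by
  rw [sat_iff, red, geo]
  exact ⟨fun ⟨val, hv⟩ => complete val hv, fun ⟨_, h1, h2, h3⟩ => sound rfl h1 h2 h3⟩

theorem hard {L : DecisionProblem} (hL : L ∈ NP) : ∃ f : List Bool → List Pt × ℕ, PT f ∧
    ∀ x, GeneralPosition (f x).1 ∧ (L x = true ↔ (f x).2 ≤ cf (f x).1) := by
  obtain ⟨f, hf, h⟩ := cook hL
  exact ⟨fun x => red (f x), pt_red.comp hf, fun x =>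
    ⟨generalPosition_pts, (h x).trans (red_spec _)⟩⟩

end Pool.Agent.P.MP_0d06a5_lc
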